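import Mathlib

set_option autoImplicit false

open MeasureTheory ProbabilityTheory Filter Set Topology Function
open scoped ENNReal

namespace Pool.Agent.H153Z.Chain

section Resample

variable {ι S : Type*} [DecidableEq ι] [MeasurableSpace S] (P : Measure S)
  [IsProbabilityMeasure P]

theorem measurable_upd (i : ι) : Measurable fun q : (ι → S) × S => update q.1 i q.2 :=
  measurable_update'

theorem mp_update (i : ι) :
    MeasurePreserving (fun q : (ι → S) × S => update q.1 i q.2)
      ((Measure.infinitePi fun _ : ι => P).prod P) (Measure.infinitePi fun _ : ι => P) := by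
  refine ⟨measurable_upd i, Measure.eq_infinitePi _ fun s t ht => ?_⟩
  rw [Measure.map_apply (measurable_upd i) (.pi s.countable_toSet fun j _ => ht j)]
  by_cases hi : i ∈ s
  · have : (fun q : (ι → S) × S => update q.1 i q.2) ⁻¹' (Set.pi s t) =
        (Set.pi (s.erase i) t) ×ˢ t i := by
      ext ⟨x, y⟩
      simp only [mem_preimage, Set.mem_pi, Finset.mem_coe, mem_prod, Finset.mem_erase]
      constructor
      · intro h
        refine ⟨fun j hj => ?_, ?_⟩
        · simpa [update_of_ne hj.1] using h j hj.2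
        · simpa using h i hi
      · rintro ⟨h1, h2⟩ j hj
        by_cases hji : j = i
        · subst hji; simpa using h2
        · simpa [update_of_ne hji] using h1 j ⟨hji, hj⟩
    rw [this, Measure.prod_prod, Measure.infinitePi_pi _ fun j _ => ht j,
      Finset.prod_erase_mul _ _ hi]
  · have : (fun q : (ι → S) × S => update q.1 i q.2) ⁻¹' (Set.pi s t) =
        (Set.pi s t) ×ˢ univ := by
      ext ⟨x, y⟩
      simp only [mem_preimage, Set.mem_pi, Finset.mem_coe, mem_prod, mem_univ, and_true]
      refine forall₂_congr fun j hj => ?_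
      rw [update_of_ne (by rintro rfl; exact hi hj)]
    rw [this, Measure.prod_prod, Measure.infinitePi_pi _ fun j _ => ht j, measure_univ, mul_one]

theorem lintegral_resample (i : ι) {G : (ι → S) → ℝ≥0∞} (hG : Measurable G) :
    ∫⁻ x, G x ∂(Measure.infinitePi fun _ : ι => P) =
      ∫⁻ x, ∫⁻ y, G (update x i y) ∂P ∂(Measure.infinitePi fun _ : ι => P) := by
  rw [← (mp_update P i).lintegral_comp hG, lintegral_prod]
  exact (hG.comp (measurable_upd i)).aemeasurable

end Resample

variable {S : Type} [MeasurableSpace S] (P : Measure S) [IsProbabilityMeasure P]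
  (q : S → S → ℝ≥0∞)

/-- the iid measure -/
noncomputable abbrev iid : Measure (ℤ → S) := Measure.infinitePi fun _ : ℤ => P

/-- the density of the chain on a window -/
noncomputable def rho (a b : ℤ) (x : ℤ → S) : ℝ≥0∞ := ∏ i ∈ Finset.Ico a b, q (x i) (x (i + 1))

variable {q}

theorem measurable_rho (hq : Measurable (uncurry q)) (a b : ℤ) : Measurable (rho q a b) := by
  unfold rho
  refine Finset.measurable_prod _ fun i _ => ?_
  exact hq.comp (f := fun x : ℤ → S => (x i, x (i + 1))) (by fun_prop)

omit [MeasurableSpace S] in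
theorem rho_update {a b c : ℤ} (hc : c < a ∨ b < c) (x : ℤ → S) (y : S) :
    rho q a b (update x c y) = rho q a b x := by
  unfold rho
  refine Finset.prod_congr rfl fun i hi => ?_
  rw [Finset.mem_Ico] at hi
  rw [update_of_ne (by omega), update_of_ne (by omega)]

omit [MeasurableSpace S] in
theorem rho_succ {a b : ℤ} (hab : a ≤ b) (x : ℤ → S) :
    rho q a (b + 1) x = rho q a b x * q (x b) (x (b + 1)) := by
  unfold rho
  rw [← Finset.insert_Ico_right_eq_Ico_add_one hab, Finset.prod_insert (by simp), mul_comm]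

omit [MeasurableSpace S] in
theorem rho_pred {a b : ℤ} (hab : a ≤ b) (x : ℤ → S) :
    rho q (a - 1) b x = rho q a b x * q (x (a - 1)) (x a) := by
  unfold rho
  have : Finset.Ico (a - 1) b = insert (a - 1) (Finset.Ico a b) := by
    ext i; simp only [Finset.mem_Ico, Finset.mem_insert]; omega
  rw [this, Finset.prod_insert (by simp), mul_comm, sub_add_cancel]

omit [MeasurableSpace S] in
theorem dep_update {F : (ℤ → S) → ℝ≥0∞} {a b c : ℤ} (hF : DependsOn F (Icc a b))
    (hc : c < a ∨ b < c) (x : ℤ → S) (y : S) : F (update x c y) = F x :=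
  hF fun i hi => update_of_ne (by rw [mem_Icc] at hi; omega) _ _

theorem step_right (hq : Measurable (uncurry q)) {F : (ℤ → S) → ℝ≥0∞} (hFm : Measurable F)
    {a b : ℤ} (hab : a ≤ b) (hF : DependsOn F (Icc a b)) {g : S → ℝ≥0∞} (hg : Measurable g) :
    ∫⁻ x, F x * g (x (b + 1)) * rho q a (b + 1) x ∂iid P =
      ∫⁻ x, F x * (∫⁻ y, g y * q (x b) y ∂P) * rho q a b x ∂iid P := by
  rw [lintegral_resample P (b + 1) (G := fun x => F x * g (x (b + 1)) * rho q a (b + 1) x)
    ((hFm.mul (hg.comp (measurable_pi_apply _))).mul (measurable_rho hq _ _))]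
  refine lintegral_congr fun x => ?_
  have hm : Measurable fun y => g y * q (x b) y :=
    hg.mul (hq.comp (f := fun y => (x b, y)) (by fun_prop))
  rw [mul_right_comm, ← lintegral_const_mul _ hm]
  refine lintegral_congr fun y => ?_
  rw [rho_succ hab, dep_update hF (Or.inr (by omega)), rho_update (Or.inr (by omega)),
    update_self, update_of_ne (by omega)]
  ring

theorem ext_right (hq : Measurable (uncurry q)) (hrow : ∀ x, ∫⁻ y, q x y ∂P = 1)
    {F : (ℤ → S) → ℝ≥0∞} (hFm : Measurable F)
    {a b : ℤ} (hab : a ≤ b) (hF : DependsOn F (Icc a b)) :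
    ∫⁻ x, F x * rho q a (b + 1) x ∂iid P = ∫⁻ x, F x * rho q a b x ∂iid P := by
  have := step_right P hq hFm hab hF (g := fun _ => 1) measurable_const
  simpa [hrow] using this

theorem ext_left (hq : Measurable (uncurry q)) (hcol : ∀ y, ∫⁻ x, q x y ∂P = 1)
    {F : (ℤ → S) → ℝ≥0∞} (hFm : Measurable F)
    {a b : ℤ} (hab : a ≤ b) (hF : DependsOn F (Icc a b)) :
    ∫⁻ x, F x * rho q (a - 1) b x ∂iid P = ∫⁻ x, F x * rho q a b x ∂iid P := by
  rw [lintegral_resample P (a - 1) (G := fun x => F x * rho q (a - 1) b x)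
    (hFm.mul (measurable_rho hq _ _))]
  refine lintegral_congr fun x => ?_
  have hm : Measurable fun y => q y (x a) := hq.comp (f := fun y => (y, x a)) (by fun_prop)
  have : ∀ y, F (update x (a - 1) y) * rho q (a - 1) b (update x (a - 1) y) =
      (F x * rho q a b x) * q y (x a) := by
    intro y
    rw [rho_pred hab, dep_update hF (Or.inl (by omega)), rho_update (Or.inl (by omega)),
      update_self, update_of_ne (by omega)]
    ring
  simp_rw [this]
  rw [lintegral_const_mul _ hm, hcol, mul_one]

theorem ext_window (hq : Measurable (uncurry q)) (hrow : ∀ x, ∫⁻ y, q x y ∂P = 1)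
    (hcol : ∀ y, ∫⁻ x, q x y ∂P = 1)
    {F : (ℤ → S) → ℝ≥0∞} (hFm : Measurable F)
    {a b : ℤ} (hab : a ≤ b) (hF : DependsOn F (Icc a b)) {a' b' : ℤ} (ha : a' ≤ a)
    (hb : b ≤ b') :
    ∫⁻ x, F x * rho q a' b' x ∂iid P = ∫⁻ x, F x * rho q a b x ∂iid P := by
  have h1 : ∀ b', b ≤ b' →
      ∫⁻ x, F x * rho q a b' x ∂iid P = ∫⁻ x, F x * rho q a b x ∂iid P := by
    intro b' hb'
    induction b', hb' using Int.leInduction with
    | base => rfl
    | succ n hn ih =>
      rw [ext_right P hq hrow hFm (hab.trans hn) (hF.mono (Icc_subset_Icc_right hn)), ih]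
  rw [← h1 b' hb]
  induction a', ha using Int.leInductionDown with
  | base => rfl
  | pred n hn ih =>
    rw [ext_left P hq hcol hFm (hn.trans (hab.trans hb)) (hF.mono (Icc_subset_Icc hn hb)), ih]

theorem exists_chain [TopologicalSpace S] [CompactSpace S] [TopologicalSpace.MetrizableSpace S]
    [BorelSpace S] (hq : Measurable (uncurry q)) (hrow : ∀ x, ∫⁻ y, q x y ∂P = 1)
    (hcol : ∀ y, ∫⁻ x, q x y ∂P = 1) :
    ∃ μ : Measure (ℤ → S), IsProbabilityMeasure μ ∧
      ∀ (F : (ℤ → S) → ℝ≥0∞), Measurable F → ∀ a b : ℤ, a ≤ b → DependsOn F (Icc a b) →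
        ∫⁻ x, F x ∂μ = ∫⁻ x, F x * rho q a b x ∂iid P := by
  classical
  have hne : Nonempty S := P.nonempty_of_neZero
  obtain ⟨x₀⟩ := hne
  have hprob : ∀ n : ℕ, IsProbabilityMeasure ((iid P).withDensity (rho q (-n) n)) := by
    intro n
    constructor
    rw [withDensity_apply _ MeasurableSet.univ, Measure.restrict_univ]
    have := ext_window P hq hrow hcol (F := fun _ => 1) measurable_const (a := 0) (b := 0) le_rfl
      (fun _ _ _ => rfl) (a' := -n) (b' := n) (by omega) (by omega)
    simpa [rho] using this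
  let ν : ℕ → ProbabilityMeasure (ℤ → S) := fun n => ⟨_, hprob n⟩
  obtain ⟨μ, hμ⟩ := exists_clusterPt_of_compactSpace (map ν atTop)
  let φ : ℕ → (ℤ → S) → (ℤ → S) := fun n x i => if i ∈ Icc (-(n : ℤ)) n then x i else x₀
  have hφc : ∀ n, Continuous (φ n) := fun n => continuous_pi fun i => by
    by_cases h : i ∈ Icc (-(n : ℤ)) n
    · simp only [φ, h, if_true]; exact continuous_apply i
    · simp only [φ, h, if_false]; exact continuous_const
  have hφd : ∀ n {F : (ℤ → S) → ℝ≥0∞}, DependsOn (fun x => F (φ n x)) (Icc (-(n : ℤ)) n) := by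
    intro n F x y h
    have : φ n x = φ n y := by
      funext i
      by_cases hi : i ∈ Icc (-(n : ℤ)) n
      · simp only [φ, hi, if_true]; exact h i hi
      · simp only [φ, hi, if_false]
    simp only [this]
  have hcons : ∀ n m : ℕ, n ≤ m → (ν m).map (hφc n).measurable.aemeasurable =
      (ν n).map (hφc n).measurable.aemeasurable := by
    intro n m hnm
    refine Subtype.ext (Measure.ext fun A hA => ?_)
    have e : ∀ k : ℕ, ((iid P).withDensity (rho q (-k) k)).map (φ n) A =
        ∫⁻ x, A.indicator 1 (φ n x) * rho q (-k) k x ∂iid P := by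
      intro k
      rw [Measure.map_apply (hφc n).measurable hA,
        withDensity_apply _ ((hφc n).measurable hA), ← lintegral_indicator ((hφc n).measurable hA)]
      refine lintegral_congr fun x => ?_
      by_cases hx : φ n x ∈ A
      · rw [indicator_of_mem (show x ∈ φ n ⁻¹' A from hx), indicator_of_mem hx]; simp
      · rw [indicator_of_notMem (show x ∉ φ n ⁻¹' A from hx), indicator_of_notMem hx]; simp
    refine (e m).trans (Eq.trans ?_ (e n).symm)
    exact ext_window P hq hrow hcol
      ((measurable_one.indicator hA).comp (hφc n).measurable) (by omega) (hφd n) (by omega)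
      (by omega)
  have hlim : ∀ n : ℕ, μ.map (hφc n).measurable.aemeasurable =
      (ν n).map (hφc n).measurable.aemeasurable := by
    intro n
    have hc := ProbabilityMeasure.continuous_map (hφc n)
    have hcl : IsClosed {κ : ProbabilityMeasure (ℤ → S) | κ.map (hφc n).measurable.aemeasurable =
      (ν n).map (hφc n).measurable.aemeasurable} := isClosed_eq hc continuous_const
    refine hcl.closure_subset (mem_closure_iff_clusterPt.2 (hμ.mono ?_))
    rw [le_principal_iff, mem_map]
    filter_upwards [eventually_ge_atTop n] with m hm using hcons n m hm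
  refine ⟨μ, inferInstance, fun F hFm a b hab hF => ?_⟩
  obtain ⟨n, hn1, hn2⟩ : ∃ n : ℕ, -(n : ℤ) ≤ a ∧ b ≤ n := ⟨a.natAbs + b.natAbs, by omega, by omega⟩
  have hFφ : ∀ x, F (φ n x) = F x := fun x => hF fun i hi => by
    have : i ∈ Icc (-(n : ℤ)) n := Icc_subset_Icc hn1 hn2 hi
    simp only [φ, this, if_true]
  have h1 : (μ : Measure (ℤ → S)).map (φ n) = ((iid P).withDensity (rho q (-n) n)).map (φ n) :=
    congrArg Subtype.val (hlim n)
  calc ∫⁻ x, F x ∂(μ : Measure (ℤ → S)) = ∫⁻ x, F (φ n x) ∂(μ : Measure (ℤ → S)) := by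
        simp_rw [hFφ]
    _ = ∫⁻ x, F (φ n x) ∂((iid P).withDensity (rho q (-n) n)) := by
        rw [← lintegral_map hFm (hφc n).measurable, h1, lintegral_map hFm (hφc n).measurable]
    _ = ∫⁻ x, F x * rho q (-n) n x ∂iid P := by
        simp_rw [hFφ]
        rw [lintegral_withDensity_eq_lintegral_mul _ (measurable_rho hq _ _) hFm]
        exact lintegral_congr fun x => mul_comm _ _
    _ = _ := ext_window P hq hrow hcol hFm hab hF hn1 hn2

end Pool.Agent.H153Z.Chain
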