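import Pool.Agent.H153Z.Chain

set_option autoImplicit false

open MeasureTheory ProbabilityTheory Filter Set Topology Function
open scoped ENNReal

namespace Pool.Agent.H153Z.Chain

variable {S : Type} [MeasurableSpace S]

theorem ext_windows {μ ν : Measure (ℤ → S)} [IsFiniteMeasure μ]
    (h : ∀ (A : Set (ℤ → S)), MeasurableSet A → ∀ N : ℕ,
      DependsOn (A.indicator (1 : (ℤ → S) → ℝ≥0∞)) (Icc (-(N : ℤ)) N) → μ A = ν A) : μ = ν := by
  refine ext_of_generate_finite (measurableCylinders fun _ : ℤ => S)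
    generateFrom_measurableCylinders.symm isPiSystem_measurableCylinders (fun A hA => ?_) ?_
  · obtain ⟨I, B, hB, rfl⟩ := (mem_measurableCylinders _).1 hA
    refine h _ (MeasurableSet.cylinder _ hB) (I.sup fun i => i.natAbs) fun x y hxy => ?_
    have : I.restrict x = I.restrict y := by
      funext i
      refine hxy i ?_
      have : i.1.natAbs ≤ I.sup fun i => i.natAbs := Finset.le_sup (f := fun i : ℤ => i.natAbs) i.2
      rw [mem_Icc]; omega
    have e : x ∈ cylinder I B ↔ y ∈ cylinder I B := by simp only [mem_cylinder, this]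
    by_cases hx : x ∈ cylinder I B
    · rw [indicator_of_mem hx, indicator_of_mem (e.1 hx)]; rfl
    · rw [indicator_of_notMem hx, indicator_of_notMem (mt e.2 hx)]
  · exact h _ MeasurableSet.univ 0 fun x y _ => by simp

variable (P : Measure S) [IsProbabilityMeasure P] {q : S → S → ℝ≥0∞} {μ : Measure (ℤ → S)}
  [IsProbabilityMeasure μ]

theorem stationary (hq : Measurable (uncurry q))
    (hμ : ∀ (F : (ℤ → S) → ℝ≥0∞), Measurable F → ∀ a b : ℤ, a ≤ b → DependsOn F (Icc a b) →
      ∫⁻ x, F x ∂μ = ∫⁻ x, F x * rho q a b x ∂iid P) (n : ℤ) :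
    μ.map (fun ω (i : ℤ) => ω (i + n)) = μ := by
  have hs : Measurable fun (ω : ℤ → S) (i : ℤ) => ω (i + n) := by fun_prop
  have := Measure.isProbabilityMeasure_map (μ := μ) hs.aemeasurable
  refine ext_windows fun A hA N hd => ?_
  have hm : Measurable (A.indicator (1 : (ℤ → S) → ℝ≥0∞)) := measurable_one.indicator hA
  rw [← lintegral_indicator_one hA, ← lintegral_indicator_one hA, lintegral_map hm hs,
    hμ _ hm _ _ (by omega) hd,
    hμ (fun ω => A.indicator 1 fun i => ω (i + n)) (hm.comp hs) (-N + n) (N + n) (by omega)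
      (fun x y hxy => hd fun i hi => hxy _ (by rw [mem_Icc] at hi ⊢; omega))]
  have hi : (iid P).map (fun ω (i : ℤ) => ω (i + n)) = iid P :=
    Measure.map_infinitePi_infinitePi_of_inj (P := fun _ : ℤ => P) (f := fun i : ℤ => i + n)
      (add_left_injective n)
  conv_rhs => rw [← hi]
  rw [lintegral_map (f := fun x => A.indicator 1 x * rho q (-N) N x)
    (hm.mul (measurable_rho hq _ _)) hs]
  refine lintegral_congr fun x => ?_
  congr 1
  unfold rho
  refine Finset.prod_bij' (fun i _ => i - n) (fun i _ => i + n) ?_ ?_ ?_ ?_ ?_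
  · intro i hi; simp only [Finset.mem_Ico] at hi ⊢; omega
  · intro i hi; simp only [Finset.mem_Ico] at hi ⊢; omega
  · intro i _; simp
  · intro i _; simp
  · intro i _
    simp only [sub_add_cancel, show i - n + 1 + n = i + 1 by ring]

theorem markov_aux (hq : Measurable (uncurry q))
    (hμ : ∀ (F : (ℤ → S) → ℝ≥0∞), Measurable F → ∀ a b : ℤ, a ≤ b → DependsOn F (Icc a b) →
      ∫⁻ x, F x ∂μ = ∫⁻ x, F x * rho q a b x ∂iid P) (n : ℤ) {A : Set S} (hA : MeasurableSet A)
    {s : Set (ℤ → S)}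
    (hs : MeasurableSet[⨆ (m : ℤ) (_ : m ≤ n),
      MeasurableSpace.comap (fun ω : ℤ → S => ω m) inferInstance] s) :
    μ (s ∩ (fun ω => ω (n + 1)) ⁻¹' A) =
      ∫⁻ ω in s, ∫⁻ y, A.indicator 1 y * q (ω n) y ∂P ∂μ := by
  classical
  obtain ⟨x₀⟩ : Nonempty S := P.nonempty_of_neZero
  let ψ : (ℤ → S) → (ℤ → S) := fun x i => if i ≤ n then x i else x₀
  have hψ : Measurable ψ := measurable_pi_lambda _ fun i => by
    by_cases h : i ≤ n
    · simp only [ψ, h, if_true]; exact measurable_pi_apply i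
    · simp only [ψ, h, if_false]; exact measurable_const
  have hle : (⨆ (m : ℤ) (_ : m ≤ n),
      MeasurableSpace.comap (fun ω : ℤ → S => ω m) inferInstance) ≤
      MeasurableSpace.comap ψ inferInstance := by
    refine iSup₂_le fun m hm => ?_
    rintro _ ⟨B, hB, rfl⟩
    refine ⟨(fun ω => ω m) ⁻¹' B, measurable_pi_apply m hB, ?_⟩
    ext x; simp [ψ, hm]
  obtain ⟨t, ht, rfl⟩ := hle _ hs
  have hA1 : Measurable (A.indicator (1 : S → ℝ≥0∞)) := measurable_one.indicator hA
  let g : S → ℝ≥0∞ := fun x => ∫⁻ y, A.indicator 1 y * q x y ∂P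
  have hg : Measurable g :=
    Measurable.lintegral_prod_right' (f := fun z : S × S => A.indicator 1 z.2 * q z.1 z.2)
      ((hA1.comp measurable_snd).mul hq)
  have hgn : Measurable fun ω : ℤ → S => g (ω n) := hg.comp (measurable_pi_apply n)
  have hAn : MeasurableSet ((fun ω : ℤ → S => ω (n + 1)) ⁻¹' A) := measurable_pi_apply _ hA
  have key : (μ.restrict ((fun ω => ω (n + 1)) ⁻¹' A)).map ψ =
      (μ.withDensity fun ω => g (ω n)).map ψ := by
    refine ext_windows fun C hC N hd => ?_
    have hm : Measurable (C.indicator (1 : (ℤ → S) → ℝ≥0∞)) := measurable_one.indicator hC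
    have hd' : DependsOn (fun x => C.indicator (1 : (ℤ → S) → ℝ≥0∞) (ψ x))
        (Icc (min (-(N : ℤ)) n) n) := by
      intro x y hxy
      refine hd fun i hi => ?_
      by_cases h : i ≤ n
      · simp only [ψ, h, if_true]
        exact hxy i ⟨(min_le_left _ _).trans hi.1, h⟩
      · simp only [ψ, h, if_false]
    rw [← lintegral_indicator_one hC, ← lintegral_indicator_one hC, lintegral_map hm hψ,
      lintegral_map hm hψ, ← lintegral_indicator hAn,
      lintegral_withDensity_eq_lintegral_mul _ hgn (g := fun x => C.indicator 1 (ψ x)) (hm.comp hψ)]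
    have e1 : ∀ x : ℤ → S, ((fun ω : ℤ → S => ω (n + 1)) ⁻¹' A).indicator
        (fun a => C.indicator (1 : (ℤ → S) → ℝ≥0∞) (ψ a)) x =
        C.indicator 1 (ψ x) * A.indicator 1 (x (n + 1)) := by
      intro x
      by_cases hx : x (n + 1) ∈ A
      · rw [indicator_of_mem (show x ∈ (fun ω : ℤ → S => ω (n + 1)) ⁻¹' A from hx),
          indicator_of_mem hx]; simp
      · rw [indicator_of_notMem (show x ∉ (fun ω : ℤ → S => ω (n + 1)) ⁻¹' A from hx),
          indicator_of_notMem hx]; simp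
    simp_rw [e1]
    rw [hμ (fun x => C.indicator 1 (ψ x) * A.indicator 1 (x (n + 1)))
      ((hm.comp hψ).mul (hA1.comp (measurable_pi_apply _))) (min (-(N : ℤ)) n) (n + 1)
      (by omega) ?_, step_right P hq (F := fun x => C.indicator 1 (ψ x)) (hm.comp hψ)
        (min_le_right _ _) hd' hA1,
      hμ ((fun ω : ℤ → S => g (ω n)) * fun a : ℤ → S => C.indicator 1 (ψ a)) (hgn.mul (hm.comp hψ)) (min (-(N : ℤ)) n) n (min_le_right _ _) ?_]
    · exact lintegral_congr fun x => by simp only [g, Pi.mul_apply]; ring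
    · intro x y hxy
      have h1 := hd' hxy
      have h2 : x n = y n := hxy n ⟨min_le_right _ _, le_rfl⟩
      simp only [Pi.mul_apply] at h1 ⊢
      rw [h1, h2]
    · intro x y hxy
      have h1 := hd' fun i hi => hxy i (Icc_subset_Icc_right (by omega) hi)
      have h2 : x (n + 1) = y (n + 1) := hxy _ ⟨by omega, le_rfl⟩
      simp only at h1 ⊢
      rw [h1, h2]
  have := congrArg (fun κ : Measure (ℤ → S) => κ t) key
  simp only [Measure.map_apply hψ ht] at this
  rw [Measure.restrict_apply (hψ ht), withDensity_apply _ (hψ ht)] at this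
  exact this

theorem markov (hq : Measurable (uncurry q)) (hrow : ∀ x, ∫⁻ y, q x y ∂P = 1)
    (hμ : ∀ (F : (ℤ → S) → ℝ≥0∞), Measurable F → ∀ a b : ℤ, a ≤ b → DependsOn F (Icc a b) →
      ∫⁻ x, F x ∂μ = ∫⁻ x, F x * rho q a b x ∂iid P) (n : ℤ) {A : Set S} (hA : MeasurableSet A) :
    condExp (⨆ (m : ℤ) (_ : m ≤ n), MeasurableSpace.comap (fun ω : ℤ → S => ω m) inferInstance) μ
        (Set.indicator ((fun ω : ℤ → S => ω (n + 1)) ⁻¹' A) (fun _ => (1 : ℝ)))
      =ᵐ[μ] condExp (MeasurableSpace.comap (fun ω : ℤ → S => ω n) inferInstance) μ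
        (Set.indicator ((fun ω : ℤ → S => ω (n + 1)) ⁻¹' A) (fun _ => (1 : ℝ))) := by
  have hA1 : Measurable (A.indicator (1 : S → ℝ≥0∞)) := measurable_one.indicator hA
  let g : S → ℝ≥0∞ := fun x => ∫⁻ y, A.indicator 1 y * q x y ∂P
  have hg : Measurable g :=
    Measurable.lintegral_prod_right' (f := fun z : S × S => A.indicator 1 z.2 * q z.1 z.2)
      ((hA1.comp measurable_snd).mul hq)
  have hg1 : ∀ x, g x ≤ 1 := fun x => by
    rw [← hrow x]
    refine lintegral_mono fun y => ?_
    by_cases hy : y ∈ A <;> simp [hy]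
  have hAn : MeasurableSet ((fun ω : ℤ → S => ω (n + 1)) ⁻¹' A) := measurable_pi_apply _ hA
  have hint : Integrable (Set.indicator ((fun ω : ℤ → S => ω (n + 1)) ⁻¹' A)
      (fun _ => (1 : ℝ))) μ := (integrable_const 1).indicator hAn
  have hgn : Measurable fun ω : ℤ → S => g (ω n) := hg.comp (measurable_pi_apply n)
  have hgm : Measurable fun ω : ℤ → S => (g (ω n)).toReal := hgn.ennreal_toReal
  have hgint : Integrable (fun ω : ℤ → S => (g (ω n)).toReal) μ := by
    refine (integrable_const (1 : ℝ)).mono' hgm.aestronglyMeasurable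
      (Eventually.of_forall fun ω => ?_)
    rw [Real.norm_of_nonneg ENNReal.toReal_nonneg]
    exact ENNReal.toReal_le_of_le_ofReal zero_le_one (by simpa using hg1 _)
  have hle1 : (⨆ (m : ℤ) (_ : m ≤ n),
      MeasurableSpace.comap (fun ω : ℤ → S => ω m) inferInstance) ≤ MeasurableSpace.pi :=
    iSup₂_le fun m _ => (measurable_pi_apply m).comap_le
  have hle2 : MeasurableSpace.comap (fun ω : ℤ → S => ω n) inferInstance ≤
      ⨆ (m : ℤ) (_ : m ≤ n), MeasurableSpace.comap (fun ω : ℤ → S => ω m) inferInstance :=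
    le_iSup₂_of_le (f := fun (m : ℤ) (_ : m ≤ n) =>
      MeasurableSpace.comap (fun ω : ℤ → S => ω m) inferInstance) n le_rfl le_rfl
  have main : ∀ m' : MeasurableSpace (ℤ → S),
      MeasurableSpace.comap (fun ω : ℤ → S => ω n) inferInstance ≤ m' →
      m' ≤ (⨆ (m : ℤ) (_ : m ≤ n), MeasurableSpace.comap (fun ω : ℤ → S => ω m) inferInstance) →
      (fun ω : ℤ → S => (g (ω n)).toReal) =ᵐ[μ] condExp m' μ
        (Set.indicator ((fun ω : ℤ → S => ω (n + 1)) ⁻¹' A) (fun _ => (1 : ℝ))) := by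
    intro m' h1 h2
    refine ae_eq_condExp_of_forall_setIntegral_eq (h2.trans hle1) hint
      (fun s _ _ => hgint.integrableOn) (fun s hs _ => ?_) ?_
    · have hs' := hle1 _ (h2 _ hs)
      rw [integral_indicator hAn, integral_toReal (f := fun ω : ℤ → S => g (ω n))
        hgn.aemeasurable
        (Eventually.of_forall fun ω => (hg1 _).trans_lt ENNReal.one_lt_top),
        setIntegral_const, Measure.real, Measure.restrict_apply hAn, inter_comm,
        markov_aux P hq hμ n hA (h2 _ hs)]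
      simp [g]
    · refine Measurable.aestronglyMeasurable ?_
      exact (hg.ennreal_toReal.comp (comap_measurable (fun ω : ℤ → S => ω n))).mono h1 le_rfl
  exact (main _ hle2 le_rfl).symm.trans (main _ le_rfl hle2)

theorem indep_two (hq : Measurable (uncurry q)) (hsq : ∀ x z, ∫⁻ y, q x y * q y z ∂P = 1)
    (hμ : ∀ (F : (ℤ → S) → ℝ≥0∞), Measurable F → ∀ a b : ℤ, a ≤ b → DependsOn F (Icc a b) →
      ∫⁻ x, F x ∂μ = ∫⁻ x, F x * rho q a b x ∂iid P) :
    IndepFun (fun ω : ℤ → S => ω 0) (fun ω => ω 2) μ := by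
  have hm : Measurable fun ω : ℤ → S => (ω 0, ω 2) := by fun_prop
  have key : μ.map (fun ω => (ω 0, ω 2)) = P.prod P := by
    rw [← Measure.infinitePi_map_eval_prod (P := fun _ : ℤ => P) (i := 0) (j := 2) (by norm_num)]
    refine Measure.ext fun C hC => ?_
    have hC1 : Measurable (C.indicator (1 : S × S → ℝ≥0∞)) := measurable_one.indicator hC
    rw [← lintegral_indicator_one hC, ← lintegral_indicator_one hC, lintegral_map hC1 hm,
      lintegral_map hC1 hm, hμ (fun ω => C.indicator 1 (ω 0, ω 2)) (hC1.comp hm) 0 2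
        (by norm_num) (fun x y h => by
          simp only [h 0 (by simp), h 2 (by simp)]),
      lintegral_resample P 1 (G := fun x : ℤ → S => C.indicator 1 (x 0, x 2) * rho q 0 2 x)
        ((hC1.comp hm).mul (measurable_rho hq _ _))]
    refine lintegral_congr fun x => ?_
    have : ∀ y, C.indicator (1 : S × S → ℝ≥0∞) (update x 1 y 0, update x 1 y 2) *
        rho q 0 2 (update x 1 y) = C.indicator 1 (x 0, x 2) * (q (x 0) y * q y (x 2)) := by
      intro y
      have : Finset.Ico (0 : ℤ) 2 = {0, 1} := by decide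
      unfold rho
      rw [this, Finset.prod_pair (by norm_num)]
      norm_num [update_of_ne]
    simp_rw [this]
    rw [lintegral_const_mul, hsq, mul_one]
    exact (hq.comp (f := fun y => (x 0, y)) (by fun_prop)).mul
      (hq.comp (f := fun y => (y, x 2)) (by fun_prop))
  rw [indepFun_iff_map_prod_eq_prod_map_map (measurable_pi_apply 0).aemeasurable
    (measurable_pi_apply 2).aemeasurable]
  have h0 : μ.map (fun ω : ℤ → S => ω 0) = P := by
    have := congrArg (Measure.map Prod.fst) key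
    rwa [Measure.map_map measurable_fst hm, Measure.map_fst_prod, measure_univ, one_smul] at this
  have h2 : μ.map (fun ω : ℤ → S => ω 2) = P := by
    have := congrArg (Measure.map Prod.snd) key
    rwa [Measure.map_map measurable_snd hm, Measure.map_snd_prod, measure_univ, one_smul] at this
  rw [key, h0, h2]

omit [IsProbabilityMeasure P] [IsProbabilityMeasure μ] in
theorem ae_step
    (hμ : ∀ (F : (ℤ → S) → ℝ≥0∞), Measurable F → ∀ a b : ℤ, a ≤ b → DependsOn F (Icc a b) →
      ∫⁻ x, F x ∂μ = ∫⁻ x, F x * rho q a b x ∂iid P) {C : Set (S × S)} (hC : MeasurableSet C)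
    (h0 : ∀ x y, (x, y) ∈ C → q x y = 0) : ∀ᵐ ω ∂μ, (ω 0, ω 1) ∉ C := by
  have hm : Measurable fun ω : ℤ → S => (ω 0, ω 1) := by fun_prop
  have hC1 : Measurable (C.indicator (1 : S × S → ℝ≥0∞)) := measurable_one.indicator hC
  have : ∫⁻ ω, C.indicator 1 (ω 0, ω 1) ∂μ = 0 := by
    rw [hμ (fun ω => C.indicator 1 (ω 0, ω 1)) (hC1.comp hm) 0 1 (by norm_num)
      (fun x y h => by simp only [h 0 (by simp), h 1 (by simp)])]
    refine (lintegral_congr fun x => ?_).trans lintegral_zero
    have : Finset.Ico (0 : ℤ) 1 = {0} := by decide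
    unfold rho
    rw [this, Finset.prod_singleton, zero_add]
    by_cases hx : (x 0, x 1) ∈ C
    · rw [h0 _ _ hx, mul_zero]
    · rw [indicator_of_notMem hx, zero_mul]
  rw [lintegral_eq_zero_iff (f := fun ω : ℤ → S => C.indicator 1 (ω 0, ω 1)) (hC1.comp hm)] at this
  filter_upwards [this] with ω hω hx
  simp [hx] at hω

theorem of_kernel {S : Type} [MetricSpace S] [CompactSpace S] [MeasurableSpace S] [BorelSpace S]
    (P : Measure S) [IsProbabilityMeasure P] (q : S → S → ℝ≥0∞) (hq : Measurable (uncurry q))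
    (hrow : ∀ x, ∫⁻ y, q x y ∂P = 1) (hcol : ∀ y, ∫⁻ x, q x y ∂P = 1)
    (hsq : ∀ x z, ∫⁻ y, q x y * q y z ∂P = 1) (ε : ℝ) (hε : 0 < ε)
    (h0 : ∀ x y, dist x y < ε → q x y = 0) :
    ∃ (S : Type) (_ : MetricSpace S) (_ : CompactSpace S) (_ : MeasurableSpace S)
      (_ : BorelSpace S) (Ω : Type) (_ : MeasurableSpace Ω) (μ : MeasureTheory.Measure Ω)
      (X : ℤ → Ω → S) (k : ℤ) (ε : ℝ),
      MeasureTheory.IsProbabilityMeasure μ ∧
      (∀ i, Measurable (X i)) ∧
      (∀ n : ℤ, μ.map (fun ω (i : ℤ) => X (i + n) ω) = μ.map (fun ω (i : ℤ) => X i ω)) ∧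
      (∀ (n : ℤ) (A : Set S), MeasurableSet A →
        MeasureTheory.condExp (⨆ (m : ℤ) (_ : m ≤ n), MeasurableSpace.comap (X m) inferInstance) μ
          (Set.indicator (X (n + 1) ⁻¹' A) (fun _ => (1 : ℝ)))
        =ᵐ[μ] MeasureTheory.condExp (MeasurableSpace.comap (X n) inferInstance) μ
          (Set.indicator (X (n + 1) ⁻¹' A) (fun _ => (1 : ℝ)))) ∧
      0 < k ∧ 0 < ε ∧
      ProbabilityTheory.IndepFun (X 0) (X k) μ ∧
      ∀ᵐ ω ∂μ, ε ≤ dist (X 0 ω) (X 1 ω) := by
  obtain ⟨μ, hμp, hμ⟩ := exists_chain P hq hrow hcol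
  refine ⟨S, inferInstance, inferInstance, inferInstance, inferInstance, ℤ → S, inferInstance, μ,
    fun i ω => ω i, 2, ε, hμp, fun i => measurable_pi_apply i, fun n => ?_,
    fun n A hA => markov P hq hrow hμ n hA, by norm_num, hε, indep_two P hq hsq hμ, ?_⟩
  · rw [stationary P hq hμ n]
    exact Measure.map_id.symm
  · have hC : MeasurableSet {z : S × S | dist z.1 z.2 < ε} :=
      (isOpen_lt continuous_dist continuous_const).measurableSet
    filter_upwards [ae_step P hμ hC h0] with ω hω using not_lt.1 hω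

end Pool.Agent.H153Z.Chain
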