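import Mathlib

/-! Integer data of a branching div-curl laminate: 12 points of an inclusion set (indices `0..11`)
and 15 nodes (indices `12..26`), with all finite checks. -/

set_option autoImplicit false

namespace Pool.Agent.H153Z.DcData

def XL : List (List (List ℤ)) :=
  [[[2, 1, 0], [1, 0, 1], [0, 0, 0]],
   [[0, 1, -5], [-1, 0, -1], [0, 0, 0]],
   [[-2, -2, 1], [0, 0, 0], [1, 1, 0]],
   [[0, -1, 1], [0, 0, 0], [-1, -1, 0]],
   [[0, 1, 1], [-1, 2, 0], [1, 1, 0]],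
   [[0, 1, 1], [-6, 0, 0], [-1, -1, 0]],
   [[0, 2, 2], [0, -2, -3], [0, 0, 0]],
   [[0, 0, 0], [0, 0, -2], [0, 0, 0]],
   [[0, 2, 2], [0, 0, 0], [0, -1, 2]],
   [[0, 0, 0], [0, 0, 0], [0, -6, 0]],
   [[0, 1, 1], [1, 0, 1], [-3, 0, -2]],
   [[0, 1, 1], [-1, 0, -1], [-2, 0, 0]],
   [[0, 0, 0], [0, 0, 0], [0, 0, 0]],
   [[1, 1, -1], [0, 0, 0], [0, 0, 0]],
   [[0, 1, -2], [-1, 0, -1], [0, 0, 0]],
   [[-1, -1, 1], [0, 0, 0], [0, 0, 0]],
   [[0, 0, 1], [0, 0, 0], [-1, -1, 0]],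
   [[0, 1, 1], [-1, 0, -1], [0, 0, 0]],
   [[0, 1, 1], [-2, 1, 0], [0, 0, 0]],
   [[0, 1, 1], [-3, 0, 0], [-1, -1, 0]],
   [[0, 1, 1], [0, -1, -2], [0, 0, 0]],
   [[0, 0, 0], [0, 0, -1], [0, 0, 0]],
   [[0, 1, 1], [0, 0, 0], [-1, -1, 0]],
   [[0, 1, 1], [0, 0, 0], [0, -2, 1]],
   [[0, 0, 0], [0, 0, 0], [0, -3, 0]],
   [[0, 1, 1], [0, 0, 0], [-2, 0, -1]],
   [[0, 1, 1], [-1, 0, -1], [-1, 0, 0]]]

def YL : List (List (List ℤ)) :=
  [[[-18, 165, -332], [672, -1775, 210], [2341, -2267, -886]],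
   [[-256, -263, -38], [1001, 88, 404], [2429, -1532, 38]],
   [[-277, 617, -860], [-240, 971, 2095], [-1821, 2590, -454]],
   [[-237, 409, 1958], [2291, -363, 730], [1301, 6, 385]],
   [[-1321, 2024, -1676], [-321, -89, 310], [-45, 635, -1149]],
   [[99, 799, -918], [-103, -251, -284], [225, 724, 1587]],
   [[-589, -1000, 1822], [-1057, 62, 307], [975, 65, 858]],
   [[847, 1338, -18], [2101, -642, 843], [255, 2468, -292]],
   [[-557, 100, 263], [-2303, -730, 1890], [-127, -284, 10]],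
   [[1791, 342, 60], [-1255, -306, 2089], [-205, -38, -180]],
   [[510, 927, 135], [2313, -690, -1665], [387, -1024, -112]],
   [[-368, -83, 2064], [-45, 750, 982], [405, 2170, -298]],
   [[-169, 342, -18], [501, -306, 843], [675, -38, -292]],
   [[-165, 171, -185], [575, -916, 307], [1879, -1374, -424]],
   [[-312, 177, -38], [478, -57, 404], [1417, -481, 38]],
   [[-173, 513, 149], [427, 304, 1379], [-529, 1298, -160]],
   [[-69, 409, 1158], [1094, -363, 663], [763, 6, 134]],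
   [[-368, 617, -38], [-45, -202, 404], [405, 570, 38]],
   [[-611, 1314, -978], [-212, -198, 233], [90, 500, -207]],
   [[99, 604, -280], [-103, -307, 156], [225, 365, 735]],
   [[-125, -80, 902], [122, -206, 575], [720, 640, 283]],
   [[339, 840, -18], [1301, -474, 843], [465, 1215, -292]],
   [[99, 409, 358], [-103, -363, 596], [225, 6, -117]],
   [[127, 221, 142], [-1340, -518, 1678], [54, -161, -113]],
   [[811, 342, 21], [-377, -306, 1466], [235, -38, -236]],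
   [[71, 597, 574], [1134, -208, -486], [396, 173, -121]],
   [[-368, 267, 1013], [-45, 274, 693], [405, 1370, -130]]]

def ZL : List (List (List ℤ)) :=
  [[[-390, -1445, -454], [-18, -861, -332], [672, -1775, -816]],
   [[-909, -88, -404], [-256, -171, -38], [279, 1227, -122]],
   [[-1588, 1356, 1266], [-1267, 1035, 1266], [-277, 617, -1181]],
   [[-523, -6, -385], [-1064, 363, -2343], [-237, 409, 2736]],
   [[-265, 724, -1459], [-2008, 1940, -2205], [-1321, 2024, -2217]],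
   [[71, 782, 117], [-126, -247, -2505], [99, 799, -1240]],
   [[-100, 0, 0], [936, -2224, 3030], [1993, -2186, 2623]],
   [[1481, 0, 0], [0, 1481, 0], [-4202, 1284, -205]],
   [[-329, 0, 0], [-987, 155, 516], [-1368, -368, 217]],
   [[-97, 0, 0], [1230, 131, 1080], [0, 0, -97]],
   [[963, 2382, -1329], [510, 738, 135], [2049, 2285, -1495]],
   [[29, -5090, -386], [-368, 711, 2064], [-323, -833, 1876]],
   [[-661, 0, 0], [-548, 131, 0], [76, 0, -205]],
   [[-415, -675, -429], [-165, -437, -185], [325, -513, -469]],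
   [[-440, 95, -404], [-312, -13, -38], [-22, 749, -122]],
   [[-907, 675, 429], [-931, 699, 185], [-173, 513, 59]],
   [[-226, -6, -408], [-595, 363, -896], [-69, 409, 1299]],
   [[29, 278, -404], [-368, 145, -38], [-323, 271, -122]],
   [[-97, 556, -808], [-1067, 999, -1591], [-611, 1314, -1453]],
   [[71, 388, -157], [-126, 58, -977], [99, 604, -689]],
   [[155, 0, 0], [331, -709, 1515], [-35, -772, 1209]],
   [[410, 0, 0], [-274, 806, 0], [-2063, 642, -205]],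
   [[71, -6, -431], [-126, 363, 551], [99, 409, -138]],
   [[-354, 0, 0], [-323, 143, 528], [-665, -184, 33]],
   [[-379, 0, 0], [341, 131, 540], [38, 0, -151]],
   [[496, -12, -862], [71, 583, 574], [863, 1002, -309]],
   [[29, -2406, -395], [-368, 428, 1013], [-323, -281, 877]]]

def BL : List (List (List ℤ)) :=
  [[[-196, 313, -154], [-189, -53, 863], [1834, 24, -2352]],
   [[-52, 1106, -242], [-1340, -152, 356], [-572, -142, 1034]],
   [[-98, 438, 2384], [-2351, 1431, -326], [4385, -372, 6034]],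
   [[565, -393, -86], [942, -886, 864], [2503, 46, 425]],
   [[-1714, 989, -983], [1305, -722, 863], [795, 26, 1459]],
   [[878, -418, 305], [-621, 265, 793], [2427, -2, -303]],
   [[3773, -1573, 2204], [5891, -320, 689], [1637, -35, 1312]],
   [[891, -664, -18], [2101, -642, 843], [891, 22, -292]],
   [[580, -208, 109], [-1137, -1530, 860], [587, 24, -298]],
   [[-213, 342, -216], [1685, -306, 805], [-205, -38, -180]],
   [[522, 262, 266], [-2983, 1539, 690], [-886, 3124, -690]],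
   [[94, -264, -440], [417, -597, 857], [1351, 23, 260]]]

def DL : List (List (List ℤ)) :=
  [[[-861, 178, -1009], [116, 670, 749], [534, -623, 3057]],
   [[-1321, 204, 48], [-749, 346, -474], [-130, 496, 980]],
   [[-468, -2416, 765], [-179, 5848, -2604], [850, 1319, -438]],
   [[1167, 110, -815], [802, 2004, 40], [546, -111, 0]],
   [[476, 1010, -493], [-559, 1679, -469], [-633, 1246, -693]],
   [[73, -441, 366], [779, 1423, 174], [-121, -315, -1157]],
   [[6060, -2586, -191], [1828, -440, -581], [2736, -1266, -354]],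
   [[2310, 22, -1001], [1085, 0, 345], [688, -318, 1223]],
   [[-73, -85, 210], [617, -260, 154], [-1866, 1125, 610]],
   [[1188, 222, -762], [-334, -966, 46], [490, 0, 214]],
   [[-4860, -298, -2148], [-1061, -143, 647], [5055, -2499, 6126]],
   [[0, 462, -1327], [651, 1021, 168], [1234, -498, 2325]]]

def cL : List ℤ := [1026, -92, 321, -778, 541, 322, 100, -1481, 329, 97, 189, -794]

def eL : List ℤ := [0, -26, -219, -838, 493, -29, -220, -876, 933, -37, -2430, -1224]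

def uL : List (List ℤ) :=
  [[2, 0, 0], [2, 2, 0], [-6, 0, 0], [-2, 0, 2], [-2, 0, 0], [0, 2, 0], [0, 2, 2], [0, -6, 0], [2, -2, 0], [0, -2, 0], [0, 0, 2], [2, 0, 2], [0, 0, -6], [0, 2, -2], [0, 0, -2]]

def nL : List (List ℤ) :=
  [[1, 1, -1], [1, 0, 1], [0, 0, 1], [1, 1, 0], [0, 1, 0], [-1, 1, 1], [1, 1, 0], [1, 0, 0], [0, 1, 1], [0, 0, 1], [1, -1, 1], [0, 1, 1], [0, 1, 0], [1, 0, 1], [1, 0, 0]]

def pL : List (Fin 27) := [13, 0, 1, 2, 3, 18, 4, 5, 6, 7, 23, 8, 9, 10, 11]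

def qL : List (Fin 27) := [15, 14, 17, 16, 22, 20, 19, 22, 21, 12, 25, 24, 12, 26, 17]

def get3 (L : List (List (List ℤ))) (v : ℕ) : Fin 3 → Fin 3 → ℤ :=
  fun a b => ((L.getD v []).getD a []).getD b 0

def get2 (L : List (List ℤ)) (v : ℕ) : Fin 3 → ℤ := fun a => (L.getD v []).getD a 0

def Xd (v : Fin 27) : Fin 3 → Fin 3 → ℤ := get3 XL v
def Yd (v : Fin 27) : Fin 3 → Fin 3 → ℤ := get3 YL v
def Zd (v : Fin 27) : Fin 3 → Fin 3 → ℤ := get3 ZL v
def Bd (i : Fin 12) : Fin 3 → Fin 3 → ℤ := get3 BL i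
def Dd (i : Fin 12) : Fin 3 → Fin 3 → ℤ := get3 DL i
def cd (i : Fin 12) : ℤ := cL.getD i 0
def ed (i : Fin 12) : ℤ := eL.getD i 0
def ud (k : Fin 15) : Fin 3 → ℤ := get2 uL k
def nd (k : Fin 15) : Fin 3 → ℤ := get2 nL k
def pd (k : Fin 15) : Fin 27 := pL.getD k 0
def qd (k : Fin 15) : Fin 27 := qL.getD k 0
def ad (k : Fin 15) : Fin 27 := ⟨12 + k, by omega⟩
def tm (i : Fin 12) : Fin 27 := ⟨i, by omega⟩

def lo : Fin 3 → Fin 3 := ![0, 0, 1]
def hi : Fin 3 → Fin 3 := ![1, 2, 2]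

section poly
variable {R : Type*} [CommRing R]

def m2 (X : Fin 3 → Fin 3 → R) (r c : Fin 3) : R :=
  X (lo r) (lo c) * X (hi r) (hi c) - X (lo r) (hi c) * X (hi r) (lo c)

def d3 (X : Fin 3 → Fin 3 → R) : R :=
  X 0 0 * X 1 1 * X 2 2 - X 0 0 * X 1 2 * X 2 1 - X 0 1 * X 1 0 * X 2 2
    + X 0 1 * X 1 2 * X 2 0 + X 0 2 * X 1 0 * X 2 1 - X 0 2 * X 1 1 * X 2 0

/-- An affine combination of minors. -/
def q (B D : Fin 3 → Fin 3 → R) (e : R) (X : Fin 3 → Fin 3 → R) : R :=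
  ∑ a, ∑ b, B a b * X a b + ∑ r, ∑ c, D r c * m2 X r c + e * d3 X

def dm2 (X E : Fin 3 → Fin 3 → R) (r c : Fin 3) : R :=
  E (lo r) (lo c) * X (hi r) (hi c) + X (lo r) (lo c) * E (hi r) (hi c)
    - (E (lo r) (hi c) * X (hi r) (lo c) + X (lo r) (hi c) * E (hi r) (lo c))

def dt (X E : Fin 3 → Fin 3 → R) (a b c : Fin 3) : R :=
  E 0 a * X 1 b * X 2 c + X 0 a * E 1 b * X 2 c + X 0 a * X 1 b * E 2 c

def dd3 (X E : Fin 3 → Fin 3 → R) : R :=
  dt X E 0 1 2 - dt X E 0 2 1 - dt X E 1 0 2 + dt X E 1 2 0 + dt X E 2 0 1 - dt X E 2 1 0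

/-- The derivative of `q B D e` at `X` in the direction `E`. -/
def dq (B D : Fin 3 → Fin 3 → R) (e : R) (X E : Fin 3 → Fin 3 → R) : R :=
  ∑ a, ∑ b, B a b * E a b + ∑ r, ∑ c, D r c * dm2 X E r c + e * dd3 X E

end poly

theorem chk_gap : ∀ i j : Fin 12, j ≠ i →
    cd j + q (Bd j) (Dd j) (ed j) (Xd (tm i)) - q (Bd j) (Dd j) (ed j) (Xd (tm j)) < cd i := by
  decide +kernel

theorem chk_grad : ∀ i : Fin 12, ∀ a b : Fin 3,
    dq (Bd i) (Dd i) (ed i) (Xd (tm i)) (fun c d => if c = a ∧ d = b then 1 else 0)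
      = Yd (tm i) a b := by
  decide +kernel

theorem chk_Z : ∀ i : Fin 12, ∀ a b : Fin 3,
    ∑ k, Xd (tm i) k a * Yd (tm i) k b - cd i * (if a = b then 1 else 0) = Zd (tm i) a b := by
  decide +kernel

theorem chk_norm : ∀ i : Fin 12,
    (∑ a, ∑ b, Xd (tm i) a b ^ 2) + (∑ a, ∑ b, Yd (tm i) a b ^ 2)
      + (∑ a, ∑ b, Zd (tm i) a b ^ 2) ≤ 7000 ^ 2 := by
  decide +kernel

theorem chk_mid : ∀ k : Fin 15, ∀ a b : Fin 3,
    2 * Xd (ad k) a b = Xd (pd k) a b + Xd (qd k) a b ∧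
    2 * Yd (ad k) a b = Yd (pd k) a b + Yd (qd k) a b ∧
    2 * Zd (ad k) a b = Zd (pd k) a b + Zd (qd k) a b := by
  decide +kernel

theorem chk_dir : ∀ k : Fin 15, 0 < ∑ j, nd k j ^ 2 ∧
    (∀ a, ∑ j, (Yd (pd k) a j - Yd (qd k) a j) * nd k j = 0) ∧
    (∀ a, ∑ j, (Zd (pd k) a j - Zd (qd k) a j) * nd k j = 0) ∧
    (∀ a j, Xd (pd k) a j - Xd (qd k) a j = ud k a * nd k j) := by
  decide +kernel

theorem chk_out : ∑ k, Xd 12 k 1 * Yd 12 k 0 ≠ Zd 12 1 0 := by
  decide +kernel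

end Pool.Agent.H153Z.DcData
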