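import Mathlib

/-! Interpolation of finitely many values and gradients by a strictly convex `C^1` function. -/

set_option autoImplicit false

namespace Pool.Agent.H153Z.DcInterp

open Filter Topology

lemma hasDerivAt_posSq (t : ℝ) : HasDerivAt (fun s : ℝ => (max s 0) ^ 2) (2 * max t 0) t := by
  rcases lt_trichotomy t 0 with h | h | h
  · have : (fun s : ℝ => (max s 0) ^ 2) =ᶠ[𝓝 t] fun _ => 0 := by
      filter_upwards [Iio_mem_nhds h] with s hs
      rw [max_eq_right (le_of_lt hs)]; norm_num
    rw [max_eq_right h.le, mul_zero]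
    exact (hasDerivAt_const t (0 : ℝ)).congr_of_eventuallyEq this
  · subst h
    rw [max_self, mul_zero, hasDerivAt_iff_isLittleO_nhds_zero]
    have h1 : (fun s : ℝ => s ^ 2) =o[𝓝 0] fun s : ℝ => s := by
      simpa using Asymptotics.isLittleO_pow_id (𝕜 := ℝ) (n := 2) (by norm_num)
    refine Asymptotics.IsBigO.trans_isLittleO ?_ h1
    refine Asymptotics.IsBigO.of_bound 1 (Eventually.of_forall fun s => ?_)
    simp only [zero_add, max_self, ne_eq, OfNat.ofNat_ne_zero, not_false_eq_true, zero_pow,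
      sub_zero, smul_zero, one_mul, Real.norm_eq_abs]
    rw [abs_of_nonneg (sq_nonneg _), abs_of_nonneg (sq_nonneg _)]
    rcases le_total s 0 with hs | hs
    · rw [max_eq_right hs]; nlinarith [sq_nonneg s]
    · rw [max_eq_left hs]
  · have : (fun s : ℝ => (max s 0) ^ 2) =ᶠ[𝓝 t] fun s => s ^ 2 := by
      filter_upwards [Ioi_mem_nhds h] with s hs
      rw [max_eq_left (le_of_lt hs)]
    rw [max_eq_left h.le]
    have h2 : HasDerivAt (fun s : ℝ => s ^ 2) (2 * t) t := by simpa using hasDerivAt_pow 2 t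
    exact h2.congr_of_eventuallyEq this

/-- A `C^1` convex monotone smoothing of the positive part. -/
noncomputable def psi (δ t : ℝ) : ℝ := ((max (t + δ) 0) ^ 2 - (max (t - δ) 0) ^ 2) / (4 * δ)

lemma hasDerivAt_psi (δ t : ℝ) :
    HasDerivAt (psi δ) ((2 * max (t + δ) 0 - 2 * max (t - δ) 0) / (4 * δ)) t := by
  have h1 := (hasDerivAt_posSq (t + δ)).comp_add_const t δ
  have h2 := (hasDerivAt_posSq (t - δ)).comp_sub_const t δ
  exact (h1.sub h2).div_const (4 * δ)

lemma deriv_psi (δ : ℝ) :
    deriv (psi δ) = fun t => (2 * max (t + δ) 0 - 2 * max (t - δ) 0) / (4 * δ) :=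
  funext fun t => (hasDerivAt_psi δ t).deriv

lemma differentiable_psi (δ : ℝ) : Differentiable ℝ (psi δ) :=
  fun t => (hasDerivAt_psi δ t).differentiableAt

lemma contDiff_psi (δ : ℝ) : ContDiff ℝ 1 (psi δ) := by
  rw [contDiff_one_iff_deriv, deriv_psi]
  exact ⟨differentiable_psi δ, by fun_prop⟩

lemma convexOn_psi {δ : ℝ} (hδ : 0 < δ) : ConvexOn ℝ Set.univ (psi δ) := by
  refine Monotone.convexOn_univ_of_deriv (differentiable_psi δ) ?_
  rw [deriv_psi]
  intro s t hst
  refine div_le_div_of_nonneg_right ?_ (by positivity)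
  simp only [max_def]
  split_ifs <;> linarith

lemma monotone_psi {δ : ℝ} (hδ : 0 < δ) : Monotone (psi δ) := by
  refine monotone_of_deriv_nonneg (differentiable_psi δ) fun t => ?_
  rw [deriv_psi]
  refine div_nonneg ?_ (by positivity)
  simp only [max_def]
  split_ifs <;> linarith

lemma psi_of_le {δ t : ℝ} (hδ : 0 < δ) (h : t ≤ -δ) : psi δ t = 0 := by
  unfold psi
  rw [max_eq_right (by linarith), max_eq_right (by linarith)]; simp

lemma psi_of_ge {δ t : ℝ} (hδ : 0 < δ) (h : δ ≤ t) : psi δ t = t := by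
  unfold psi
  rw [max_eq_left (by linarith), max_eq_left (by linarith)]
  field_simp; ring

lemma psi_le {δ : ℝ} (hδ : 0 < δ) (t : ℝ) : psi δ t ≤ max t 0 + δ := by
  rcases le_total δ t with h | h
  · rw [psi_of_ge hδ h]; linarith [le_max_left t 0]
  · have := monotone_psi hδ h
    rw [psi_of_ge hδ le_rfl] at this
    linarith [le_max_right t 0]

variable {E : Type*} [NormedAddCommGroup E] [NormedSpace ℝ E]

lemma convexOn_affine (a : ℝ) (p : E →L[ℝ] ℝ) : ConvexOn ℝ Set.univ (fun y => a + p y) := by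
  refine ⟨convex_univ, fun x _ y _ s t _ _ hst => le_of_eq ?_⟩
  simp only [map_add, map_smul, smul_eq_mul]
  linear_combination (-a) * hst

lemma smooth_max {κ : Type*} (a : κ → ℝ) (p : κ → E →L[ℝ] ℝ) {δ : ℝ} (hδ : 0 < δ)
    (s : Finset κ) (hs : s.Nonempty) :
    ∃ h : E → ℝ, ConvexOn ℝ Set.univ h ∧ ContDiff ℝ 1 h ∧
      (∀ y M, (∀ i ∈ s, a i + p i y + s.card * δ ≤ M) → h y ≤ M) ∧
      (∀ y, ∀ i ∈ s, (∀ j ∈ s, j ≠ i → a j + p j y + s.card * δ ≤ a i + p i y) →
        h y = a i + p i y) := by
  induction hs using Finset.Nonempty.cons_induction with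
  | singleton k =>
    refine ⟨fun y => a k + p k y, convexOn_affine _ _, contDiff_const.add (p k).contDiff, ?_, ?_⟩
    · intro y M hM
      have := hM k (by simp)
      simp only [Finset.card_singleton, Nat.cast_one, one_mul] at this
      linarith
    · intro y i hi _
      rw [Finset.mem_singleton.1 hi]
  | cons k s hk hs ih =>
    obtain ⟨h, hc, hd, hU, hE⟩ := ih
    have hcard : ((Finset.cons k s hk).card : ℝ) = s.card + 1 := by
      rw [Finset.card_cons]; push_cast; ring
    have hs0 : (0 : ℝ) ≤ s.card * δ := by positivity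
    refine ⟨fun y => (a k + p k y) + psi δ (h y + (-a k + (-p k) y)), ?_, ?_, ?_, ?_⟩
    · refine (convexOn_affine (a k) (p k)).add ?_
      have h1 : ConvexOn ℝ Set.univ (fun y => h y + (-a k + (-p k) y)) :=
        hc.add (convexOn_affine (-a k) (-p k))
      refine ⟨convex_univ, fun x _ y _ u v hu hv huv => ?_⟩
      exact ((monotone_psi hδ) (h1.2 trivial trivial hu hv huv)).trans
        ((convexOn_psi hδ).2 trivial trivial hu hv huv)
    · refine (contDiff_const.add (p k).contDiff).add ?_
      exact (contDiff_psi δ).comp (hd.add (contDiff_const.add (-p k).contDiff))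
    · intro y M hM
      rw [hcard] at hM
      have h1 : h y ≤ M - δ := hU y _ fun i hi => by
        have := hM i (Finset.mem_cons_of_mem hi); linarith
      have h2 := hM k (Finset.mem_cons_self _ _)
      have h3 := psi_le hδ (h y + (-a k + (-p k) y))
      simp only [neg_apply] at h3 ⊢
      rcases le_total (h y + (-a k + -(p k) y)) 0 with h4 | h4
      · rw [max_eq_right h4] at h3; nlinarith
      · rw [max_eq_left h4] at h3; nlinarith
    · intro y i hi hM
      rw [hcard] at hM
      simp only [neg_apply]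
      rcases Finset.mem_cons.1 hi with rfl | hi'
      · have h1 : h y ≤ a i + p i y - δ := hU y _ fun j hj => by
          have := hM j (Finset.mem_cons_of_mem hj) (fun e => hk (e ▸ hj)); linarith
        rw [psi_of_le hδ (by linarith), add_zero]
      · have h1 : h y = a i + p i y := hE y i hi' fun j hj hji => by
          have := hM j (Finset.mem_cons_of_mem hj) hji; linarith
        have h2 := hM k (Finset.mem_cons_self _ _) (fun e => hk (e ▸ hi'))
        rw [psi_of_ge hδ (by linarith), h1]; ring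

lemma strictConvexOn_sumSq {ι : Type*} [Fintype ι] :
    StrictConvexOn ℝ Set.univ (fun y : ι → ℝ => ∑ q, y q ^ 2) := by
  refine ⟨convex_univ, fun x _ y _ hxy u v hu hv huv => ?_⟩
  obtain ⟨q0, hq0⟩ := Function.ne_iff.1 hxy
  simp only [Pi.add_apply, Pi.smul_apply, smul_eq_mul, Finset.mul_sum, ← Finset.sum_add_distrib]
  have key : ∀ q, u * x q ^ 2 + v * y q ^ 2 - (u * x q + v * y q) ^ 2 = u * v * (x q - y q) ^ 2 := by
    intro q
    have : v = 1 - u := by linarith
    subst this; ring
  refine Finset.sum_lt_sum (fun q _ => ?_) ⟨q0, Finset.mem_univ _, ?_⟩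
  · have := key q
    have h2 : 0 ≤ u * v * (x q - y q) ^ 2 := by positivity
    linarith
  · have := key q0
    have h3 : 0 < (x q0 - y q0) ^ 2 := by
      have : x q0 - y q0 ≠ 0 := sub_ne_zero.2 hq0
      positivity
    have h2 : 0 < u * v * (x q0 - y q0) ^ 2 := by positivity
    linarith

/-- The functional `y ↦ ∑ q, x q * y q`. -/
noncomputable def dotL {ι : Type*} [Fintype ι] (x : ι → ℝ) : (ι → ℝ) →L[ℝ] ℝ :=
  ∑ q, x q • ContinuousLinearMap.proj (R := ℝ) (φ := fun _ : ι => ℝ) q

lemma dotL_apply {ι : Type*} [Fintype ι] (x y : ι → ℝ) : dotL x y = ∑ q, x q * y q := by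
  simp [dotL]

lemma hasFDerivAt_sumSq {ι : Type*} [Fintype ι] (x : ι → ℝ) :
    HasFDerivAt (fun y : ι → ℝ => ∑ q, y q ^ 2) ((2 : ℝ) • dotL x) x := by
  have h : ∀ q, HasFDerivAt (fun y : ι → ℝ => y q ^ 2)
      ((2 : ℝ) • (x q • ContinuousLinearMap.proj (R := ℝ) (φ := fun _ : ι => ℝ) q)) x := by
    intro q
    have h1 := (hasFDerivAt_apply (𝕜 := ℝ) (F' := fun _ : ι => ℝ) q x).pow 2
    refine h1.congr_fderiv ?_
    ext v
    simp [mul_assoc]
  have := HasFDerivAt.fun_sum (u := Finset.univ) (fun q _ => h q)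
  refine this.congr_fderiv ?_
  simp only [dotL, Finset.smul_sum]

theorem exists_strictConvex {ι κ : Type*} [Fintype ι] [Fintype κ] [Nonempty κ]
    (x : κ → ι → ℝ) (c : κ → ℝ) (p : κ → (ι → ℝ) →L[ℝ] ℝ)
    (hgap : ∀ i j, j ≠ i → c j + p j (x i) - p j (x j) < c i) :
    ∃ g : (ι → ℝ) → ℝ, StrictConvexOn ℝ Set.univ g ∧ ContDiff ℝ 1 g ∧
      ∀ i, g (x i) = c i ∧ HasFDerivAt g (p i) (x i) := by
  have hev : ∀ᶠ ε in 𝓝[>] (0 : ℝ), 0 < ε ∧ ∀ i j, j ≠ i →
      c j + p j (x i) - p j (x j) + ε * (∑ q, (x i q - x j q) ^ 2 + (Fintype.card κ : ℝ)) < c i := by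
    refine Eventually.and self_mem_nhdsWithin ?_
    refine eventually_all.2 fun i => eventually_all.2 fun j => ?_
    by_cases hji : j = i
    · exact Eventually.of_forall fun _ h => absurd hji h
    · have hc : Continuous fun ε : ℝ => c j + p j (x i) - p j (x j) +
          ε * (∑ q, (x i q - x j q) ^ 2 + (Fintype.card κ : ℝ)) := by fun_prop
      have := (hc.tendsto 0).eventually_lt_const (u := c i) (by simpa using hgap i j hji)
      exact (this.filter_mono nhdsWithin_le_nhds).mono fun _ h _ => h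
  obtain ⟨ε, hε, hgap'⟩ := hev.exists
  set p' : κ → (ι → ℝ) →L[ℝ] ℝ := fun i => p i - ε • ((2 : ℝ) • dotL (x i)) with hp'
  set a : κ → ℝ := fun i => c i - p i (x i) + ε * ∑ q, x i q ^ 2 with ha
  obtain ⟨h, hc, hd, -, hE⟩ := smooth_max a p' hε Finset.univ Finset.univ_nonempty
  have hval : ∀ i j, a j + p' j (x i) = c j + p j (x i) - p j (x j)
      + ε * ∑ q, (x i q - x j q) ^ 2 - ε * ∑ q, x i q ^ 2 := by
    intro i j
    have : ∑ q, (x i q - x j q) ^ 2
        = ∑ q, x i q ^ 2 + ∑ q, x j q ^ 2 - 2 * ∑ q, x j q * x i q := by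
      rw [Finset.mul_sum, ← Finset.sum_add_distrib, ← Finset.sum_sub_distrib]
      exact Finset.sum_congr rfl fun q _ => by ring
    simp only [ha, hp', sub_apply, smul_apply, dotL_apply,
      smul_eq_mul, this]
    ring
  have hloc : ∀ i, h =ᶠ[𝓝 (x i)] fun y => a i + p' i y := by
    intro i
    have : ∀ᶠ y in 𝓝 (x i), ∀ j, j ≠ i →
        a j + p' j y + (Finset.univ : Finset κ).card * ε < a i + p' i y := by
      refine eventually_all.2 fun j => ?_
      by_cases hji : j = i
      · exact Eventually.of_forall fun _ h => absurd hji h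
      · have h1 : a j + p' j (x i) + (Finset.univ : Finset κ).card * ε < a i + p' i (x i) := by
          rw [hval i j, hval i i, Finset.card_univ]
          have := hgap' i j hji
          simp only [sub_self, ne_eq, OfNat.ofNat_ne_zero, not_false_eq_true, zero_pow,
            Finset.sum_const_zero, mul_zero, add_zero]
          linarith
        have hc1 : ContinuousAt (fun y => a j + p' j y + (Finset.univ : Finset κ).card * ε) (x i) := by
          fun_prop
        have hc2 : ContinuousAt (fun y => a i + p' i y) (x i) := by fun_prop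
        exact (hc1.eventually_lt hc2 h1).mono fun _ h _ => h
    filter_upwards [this] with y hy
    exact hE y i (Finset.mem_univ _) fun j _ hji => (hy j hji).le
  refine ⟨fun y => h y + ε * ∑ q, y q ^ 2, ?_, ?_, fun i => ⟨?_, ?_⟩⟩
  · refine hc.add_strictConvexOn ?_
    have h1 := strictConvexOn_sumSq (ι := ι)
    refine ⟨convex_univ, fun x _ y _ hxy u v hu hv huv => ?_⟩
    have := h1.2 (Set.mem_univ x) (Set.mem_univ y) hxy hu hv huv
    simp only [smul_eq_mul] at this ⊢
    nlinarith
  · refine hd.add (contDiff_const.mul ?_)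
    exact ContDiff.sum fun q _ => (contDiff_apply ℝ ℝ q).pow 2
  · show h (x i) + ε * ∑ q, x i q ^ 2 = c i
    rw [(hloc i).eq_of_nhds, hval i i]; simp
  · have h1 : HasFDerivAt h (p' i) (x i) :=
      (((p' i).hasFDerivAt (x := x i)).const_add (a i)).congr_of_eventuallyEq (hloc i)
    have h2 := h1.add ((hasFDerivAt_sumSq (x i)).const_mul ε)
    refine h2.congr_fderiv ?_
    simp only [hp', sub_add_cancel]

end Pool.Agent.H153Z.DcInterp
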