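import Mathlib
import Pool.Agent.H153Z.DcInterp
import Pool.Agent.H153Z.DcData

/-! A strictly polyconvex `C^1` integrand on `3 × 3` matrices whose inclusion set has a nontrivial
div-curl convex hull. -/

set_option autoImplicit false
open Classical

namespace Pool.Agent.H153Z.DcMain

open Pool.Agent.H153Z.DcData Pool.Agent.H153Z.DcInterp

abbrev M := Fin 3 → Fin 3 → ℝ

abbrev I := Σ k : Fin (min 3 3),
  {r : Fin (k.1 + 1) → Fin 3 // StrictMono r} × {c : Fin (k.1 + 1) → Fin 3 // StrictMono c}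

noncomputable def Phi (Y : M) : I → ℝ :=
  fun p => Matrix.det ((Matrix.of Y).submatrix p.2.1.1 p.2.2.1)

lemma differentiable_Phi [Fintype I] : Differentiable ℝ Phi := by
  refine differentiable_pi.2 fun p => ?_
  simp only [Phi, Matrix.det_apply', Matrix.submatrix_apply, Matrix.of_apply]
  fun_prop

def s1 (a : Fin 3) : {r : Fin 1 → Fin 3 // StrictMono r} :=
  ⟨fun _ => a, Subsingleton.strictMono _⟩

def s2 (r : Fin 3) : {r : Fin 2 → Fin 3 // StrictMono r} :=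
  ⟨![lo r, hi r], by
    rw [Fin.strictMono_iff_lt_succ]
    intro i
    fin_cases i
    fin_cases r <;> decide⟩

def s3 : {r : Fin 3 → Fin 3 // StrictMono r} := ⟨id, strictMono_id⟩

def i1 (a b : Fin 3) : I := ⟨⟨0, by decide⟩, s1 a, s1 b⟩
def i2 (r c : Fin 3) : I := ⟨⟨1, by decide⟩, s2 r, s2 c⟩
def i3 : I := ⟨⟨2, by decide⟩, s3, s3⟩

lemma Phi_i1 (Y : M) (a b : Fin 3) : Phi Y (i1 a b) = Y a b := by
  show Matrix.det ((Matrix.of Y).submatrix (fun _ : Fin 1 => a) (fun _ : Fin 1 => b)) = _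
  rw [Matrix.det_fin_one]; rfl

lemma Phi_i2 (Y : M) (r c : Fin 3) : Phi Y (i2 r c) = m2 Y r c := by
  show Matrix.det ((Matrix.of Y).submatrix ![lo r, hi r] ![lo c, hi c]) = _
  rw [Matrix.det_fin_two]; rfl

lemma Phi_i3 (Y : M) : Phi Y i3 = d3 Y := by
  show Matrix.det ((Matrix.of Y).submatrix (id : Fin 3 → Fin 3) (id : Fin 3 → Fin 3)) = _
  rw [Matrix.det_fin_three]; rfl

noncomputable def pr (p : I) : (I → ℝ) →L[ℝ] ℝ :=
  ContinuousLinearMap.proj (R := ℝ) (φ := fun _ : I => ℝ) p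

noncomputable def pL (B D : M) (e : ℝ) : (I → ℝ) →L[ℝ] ℝ :=
  ∑ a, ∑ b, B a b • pr (i1 a b) + ∑ r, ∑ c, D r c • pr (i2 r c) + e • pr i3

lemma pL_Phi (B D : M) (e : ℝ) (Y : M) : pL B D e (Phi Y) = q B D e Y := by
  simp [pL, pr, q, Phi_i1, Phi_i2, Phi_i3]

lemma hasDerivAt_q (B D : M) (e : ℝ) (X E : M) :
    HasDerivAt (fun t : ℝ => q B D e (X + t • E)) (dq B D e X E) 0 := by
  have h : ∀ a b, HasDerivAt (fun t : ℝ => (X + t • E) a b) (E a b) 0 := by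
    intro a b
    simpa using ((hasDerivAt_id (0 : ℝ)).mul_const (E a b)).const_add (X a b)
  have h2 : ∀ r c, HasDerivAt (fun t : ℝ => m2 (X + t • E) r c) (dm2 X E r c) 0 := by
    intro r c
    refine (((h _ _).fun_mul (h _ _)).fun_sub ((h _ _).fun_mul (h _ _))).congr_deriv ?_
    simp [dm2]
  have h3 : ∀ a b c, HasDerivAt (fun t : ℝ => (X + t • E) 0 a * (X + t • E) 1 b * (X + t • E) 2 c)
      (dt X E a b c) 0 := by
    intro a b c
    refine (((h _ _).fun_mul (h _ _)).fun_mul (h _ _)).congr_deriv ?_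
    simp [dt]; ring
  have h4 : HasDerivAt (fun t : ℝ => d3 (X + t • E)) (dd3 X E) 0 :=
    ((((((h3 0 1 2).fun_sub (h3 0 2 1)).fun_sub (h3 1 0 2)).fun_add (h3 1 2 0)).fun_add
      (h3 2 0 1)).fun_sub (h3 2 1 0))
  refine HasDerivAt.fun_add (HasDerivAt.fun_add ?_ ?_) (h4.const_mul e)
  · exact HasDerivAt.fun_sum fun a _ => HasDerivAt.fun_sum fun b _ => (h a b).const_mul _
  · exact HasDerivAt.fun_sum fun a _ => HasDerivAt.fun_sum fun b _ => (h2 a b).const_mul _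

lemma fderiv_comp_Phi [Fintype I] (g : (I → ℝ) → ℝ) (B D : M) (e : ℝ) (X E : M)
    (hg : HasFDerivAt g (pL B D e) (Phi X)) :
    fderiv ℝ (fun Y => g (Phi Y)) X E = dq B D e X E := by
  have hP := (differentiable_Phi X).hasFDerivAt
  have h1 : HasFDerivAt (fun Y => g (Phi Y)) ((pL B D e).comp (fderiv ℝ Phi X)) X := hg.comp X hP
  have h2 : HasFDerivAt (fun Y => q B D e Y) ((pL B D e).comp (fderiv ℝ Phi X)) X := by
    have := ((pL B D e).hasFDerivAt (x := Phi X)).comp X hP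
    refine this.congr_of_eventuallyEq (Filter.Eventually.of_forall fun Y => ?_)
    exact (pL_Phi B D e Y).symm
  have h3 : HasDerivAt (fun t : ℝ => X + t • E) E 0 := by
    simpa using ((hasDerivAt_id (0 : ℝ)).smul_const E).const_add X
  have h4 : HasDerivAt (fun t : ℝ => q B D e (X + t • E))
      (((pL B D e).comp (fderiv ℝ Phi X)) E) 0 := by
    have h5 : HasFDerivAt (fun Y => q B D e Y) ((pL B D e).comp (fderiv ℝ Phi X))
        (X + (0 : ℝ) • E) := by simpa using h2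
    exact h5.comp_hasDerivAt (0 : ℝ) h3
  rw [h1.fderiv]
  exact h4.unique (hasDerivAt_q B D e X E)

/-- Cast of an integer matrix. -/
def cs (A : Fin 3 → Fin 3 → ℤ) : M := fun a b => (A a b : ℝ)

lemma q_cs (B D : Fin 3 → Fin 3 → ℤ) (e : ℤ) (X : Fin 3 → Fin 3 → ℤ) :
    q (cs B) (cs D) (e : ℝ) (cs X) = ((q B D e X : ℤ) : ℝ) := by
  simp only [q, m2, d3, cs]; push_cast; rfl

lemma dq_cs (B D : Fin 3 → Fin 3 → ℤ) (e : ℤ) (X E : Fin 3 → Fin 3 → ℤ) :
    dq (cs B) (cs D) (e : ℝ) (cs X) (cs E) = ((dq B D e X E : ℤ) : ℝ) := by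
  simp only [dq, dm2, dd3, dt, cs]; push_cast; rfl

theorem exists_g [Fintype I] : ∃ g : (I → ℝ) → ℝ, StrictConvexOn ℝ Set.univ g ∧ ContDiff ℝ 1 g ∧
    ∀ i : Fin 12, g (Phi (cs (Xd (tm i)))) = cd i ∧ ∀ a b : Fin 3,
      fderiv ℝ (fun Y => g (Phi Y)) (cs (Xd (tm i)))
        (fun c d => if c = a ∧ d = b then (1 : ℝ) else 0) = Yd (tm i) a b := by
  obtain ⟨g, h1, h2, h3⟩ := exists_strictConvex (fun i : Fin 12 => Phi (cs (Xd (tm i))))
    (fun i => (cd i : ℝ)) (fun i => pL (cs (Bd i)) (cs (Dd i)) (ed i)) (by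
      intro i j hji
      simp only [pL_Phi, q_cs]
      exact_mod_cast chk_gap i j hji)
  refine ⟨g, h1, h2, fun i => ⟨(h3 i).1, fun a b => ?_⟩⟩
  rw [fderiv_comp_Phi g _ _ _ _ _ (h3 i).2, ← chk_grad i a b, ← dq_cs]
  congr 1
  funext c d
  simp only [cs]
  split_ifs <;> simp

/-- The 27 vertices. -/
def V (v : Fin 27) : M × M × M := (cs (Xd v), cs (Yd v), cs (Zd v))

lemma node_ineq (F : M × M × M → ℝ)
    (hF : ∀ A' B : M × M × M,
        (∃ ξ : Fin 3 → ℝ, ∑ j, ξ j ^ 2 = 1 ∧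
          (∀ i, ∑ j, B.2.1 i j * ξ j = 0) ∧
          (∀ a, ∑ j, B.2.2 a j * ξ j = 0) ∧
          ∃ u : Fin 3 → ℝ, ∀ i j, B.1 i j = u i * ξ j) →
        ConvexOn ℝ Set.univ (fun t : ℝ => F (A' + t • B))) (k : Fin 15) :
    2 * F (V (ad k)) ≤ F (V (pd k)) + F (V (qd k)) := by
  obtain ⟨h0, hY, hZ, hX⟩ := chk_dir k
  have h0' : (0 : ℝ) < ∑ j, (nd k j : ℝ) ^ 2 := by exact_mod_cast h0
  set s : ℝ := Real.sqrt (∑ j, (nd k j : ℝ) ^ 2) with hs
  have hs0 : 0 < s := Real.sqrt_pos.2 h0'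
  have hs2 : s ^ 2 = ∑ j, (nd k j : ℝ) ^ 2 := Real.sq_sqrt h0'.le
  have hc := hF (V (qd k)) (V (pd k) - V (qd k)) ⟨fun j => (nd k j : ℝ) / s, ?_, ?_, ?_,
    fun i => (ud k i : ℝ) * s, ?_⟩
  · have h1 := hc.2 (Set.mem_univ (0 : ℝ)) (Set.mem_univ (1 : ℝ))
      (by norm_num : (0 : ℝ) ≤ 1 / 2) (by norm_num : (0 : ℝ) ≤ 1 / 2) (by norm_num)
    have h2 : V (qd k) + ((1 / 2 : ℝ) • (0 : ℝ) + (1 / 2 : ℝ) • (1 : ℝ)) • (V (pd k) - V (qd k))
        = V (ad k) := by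
      refine Prod.ext ?_ (Prod.ext ?_ ?_) <;> funext a b <;>
        obtain ⟨e1, e2, e3⟩ := chk_mid k a b
      · have : (2 : ℝ) * Xd (ad k) a b = Xd (pd k) a b + Xd (qd k) a b := by exact_mod_cast e1
        simp only [V, cs, Prod.fst_add, Prod.smul_fst, Prod.fst_sub, Pi.add_apply, Pi.smul_apply,
          Pi.sub_apply, smul_eq_mul]
        linarith
      · have : (2 : ℝ) * Yd (ad k) a b = Yd (pd k) a b + Yd (qd k) a b := by exact_mod_cast e2
        simp only [V, cs, Prod.fst_add, Prod.smul_fst, Prod.fst_sub, Prod.snd_add, Prod.smul_snd,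
          Prod.snd_sub, Pi.add_apply, Pi.smul_apply, Pi.sub_apply, smul_eq_mul]
        linarith
      · have : (2 : ℝ) * Zd (ad k) a b = Zd (pd k) a b + Zd (qd k) a b := by exact_mod_cast e3
        simp only [V, cs, Prod.snd_add, Prod.smul_snd,
          Prod.snd_sub, Pi.add_apply, Pi.smul_apply, Pi.sub_apply, smul_eq_mul]
        linarith
    simp only [h2, zero_smul, add_zero, one_smul, add_sub_cancel] at h1
    simp only [smul_eq_mul] at h1
    linarith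
  · simp only [div_pow, ← Finset.sum_div]
    rw [hs2]; exact div_self h0'.ne'
  · intro i
    have : ∑ j, ((Yd (pd k) i j : ℝ) - Yd (qd k) i j) * nd k j = 0 := by exact_mod_cast hY i
    simp only [V, cs, Prod.fst_sub, Prod.snd_sub, Pi.sub_apply, ← mul_div_assoc, ← Finset.sum_div]
    rw [this, zero_div]
  · intro i
    have : ∑ j, ((Zd (pd k) i j : ℝ) - Zd (qd k) i j) * nd k j = 0 := by exact_mod_cast hZ i
    simp only [V, cs, Prod.snd_sub, Pi.sub_apply, ← mul_div_assoc, ← Finset.sum_div]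
    rw [this, zero_div]
  · intro i j
    have : (Xd (pd k) i j : ℝ) - Xd (qd k) i j = ud k i * nd k j := by exact_mod_cast hX i j
    simp only [V, cs, Prod.fst_sub, Pi.sub_apply]
    rw [this]; field_simp

lemma hull_ineq (F : M × M × M → ℝ)
    (hn : ∀ k : Fin 15, 2 * F (V (ad k)) ≤ F (V (pd k)) + F (V (qd k)))
    (ht : ∀ i : Fin 12, F (V (tm i)) ≤ 0) : F (V 12) ≤ 0 := by
  have n0 : 2 * F (V 12) ≤ F (V 13) + F (V 15) := hn 0
  have n1 : 2 * F (V 13) ≤ F (V 0) + F (V 14) := hn 1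
  have n2 : 2 * F (V 14) ≤ F (V 1) + F (V 17) := hn 2
  have n3 : 2 * F (V 15) ≤ F (V 2) + F (V 16) := hn 3
  have n4 : 2 * F (V 16) ≤ F (V 3) + F (V 22) := hn 4
  have n5 : 2 * F (V 17) ≤ F (V 18) + F (V 20) := hn 5
  have n6 : 2 * F (V 18) ≤ F (V 4) + F (V 19) := hn 6
  have n7 : 2 * F (V 19) ≤ F (V 5) + F (V 22) := hn 7
  have n8 : 2 * F (V 20) ≤ F (V 6) + F (V 21) := hn 8
  have n9 : 2 * F (V 21) ≤ F (V 7) + F (V 12) := hn 9
  have n10 : 2 * F (V 22) ≤ F (V 23) + F (V 25) := hn 10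
  have n11 : 2 * F (V 23) ≤ F (V 8) + F (V 24) := hn 11
  have n12 : 2 * F (V 24) ≤ F (V 9) + F (V 12) := hn 12
  have n13 : 2 * F (V 25) ≤ F (V 10) + F (V 26) := hn 13
  have n14 : 2 * F (V 26) ≤ F (V 11) + F (V 17) := hn 14
  have t0 : F (V 0) ≤ 0 := ht 0
  have t1 : F (V 1) ≤ 0 := ht 1
  have t2 : F (V 2) ≤ 0 := ht 2
  have t3 : F (V 3) ≤ 0 := ht 3
  have t4 : F (V 4) ≤ 0 := ht 4
  have t5 : F (V 5) ≤ 0 := ht 5
  have t6 : F (V 6) ≤ 0 := ht 6
  have t7 : F (V 7) ≤ 0 := ht 7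
  have t8 : F (V 8) ≤ 0 := ht 8
  have t9 : F (V 9) ≤ 0 := ht 9
  have t10 : F (V 10) ≤ 0 := ht 10
  have t11 : F (V 11) ≤ 0 := ht 11
  linarith

theorem main :
    ¬ (∀ n m : ℕ, 1 ≤ n → 1 ≤ m →
  ∀ f : (Fin n → Fin m → ℝ) → ℝ,
    (∃ g : ((Σ k : Fin (min n m),
        {r : Fin (k.1 + 1) → Fin n // StrictMono r} ×
        {c : Fin (k.1 + 1) → Fin m // StrictMono c}) → ℝ) → ℝ,
      StrictConvexOn ℝ Set.univ g ∧ ContDiff ℝ 1 g ∧
      ∀ Y : Fin n → Fin m → ℝ,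
        f Y = g (fun p => Matrix.det ((Matrix.of Y).submatrix p.2.1.1 p.2.2.1))) →
  ∀ R : ℝ, 0 < R →
  ∀ A : (Fin n → Fin m → ℝ) × (Fin n → Fin m → ℝ) × (Fin m → Fin m → ℝ),
    (∀ F : (Fin n → Fin m → ℝ) × (Fin n → Fin m → ℝ) × (Fin m → Fin m → ℝ) → ℝ,
      (∀ A' B : (Fin n → Fin m → ℝ) × (Fin n → Fin m → ℝ) × (Fin m → Fin m → ℝ),
        (∃ ξ : Fin m → ℝ, ∑ j, ξ j ^ 2 = 1 ∧
          (∀ i, ∑ j, B.2.1 i j * ξ j = 0) ∧
          (∀ a, ∑ j, B.2.2 a j * ξ j = 0) ∧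
          ∃ u : Fin n → ℝ, ∀ i j, B.1 i j = u i * ξ j) →
        ConvexOn ℝ Set.univ (fun t : ℝ => F (A' + t • B))) →
      (∀ P : (Fin n → Fin m → ℝ) × (Fin n → Fin m → ℝ) × (Fin m → Fin m → ℝ),
        (∃ X : Fin n → Fin m → ℝ,
          P = (X,
               fun i j => fderiv ℝ f X
                 (fun a b => if a = i ∧ b = j then (1 : ℝ) else 0 : Fin n → Fin m → ℝ),
               fun a b => ∑ i, X i a * fderiv ℝ f X
                 (fun c d => if c = i ∧ d = b then (1 : ℝ) else 0 : Fin n → Fin m → ℝ)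
                 - f X * (if a = b then (1 : ℝ) else 0)) ∧
          (∑ i, ∑ j, P.1 i j ^ 2) + (∑ i, ∑ j, P.2.1 i j ^ 2)
            + (∑ a, ∑ b, P.2.2 a b ^ 2) ≤ R ^ 2) →
        F P ≤ 0) →
      F A ≤ 0) →
    ∃ X : Fin n → Fin m → ℝ,
      A = (X,
           fun i j => fderiv ℝ f X
             (fun a b => if a = i ∧ b = j then (1 : ℝ) else 0 : Fin n → Fin m → ℝ),
           fun a b => ∑ i, X i a * fderiv ℝ f X
             (fun c d => if c = i ∧ d = b then (1 : ℝ) else 0 : Fin n → Fin m → ℝ)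
             - f X * (if a = b then (1 : ℝ) else 0)) ∧
      (∑ i, ∑ j, A.1 i j ^ 2) + (∑ i, ∑ j, A.2.1 i j ^ 2)
        + (∑ a, ∑ b, A.2.2 a b ^ 2) ≤ R ^ 2) := by
  intro H
  obtain ⟨g, h1, h2, h3⟩ := exists_g
  have H3 := H 3 3 (by norm_num) (by norm_num) (fun Y => g (Phi Y)) ⟨g, h1, h2, fun _ => rfl⟩
    7000 (by norm_num) (V 12) ?_
  · obtain ⟨X, hX, -⟩ := H3
    have e1 : cs (Xd 12) = X := congrArg Prod.fst hX
    have e2 := fun k => congrFun (congrFun (congrArg (fun P => P.2.1) hX) k) 0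
    have e3 := congrFun (congrFun (congrArg (fun P => P.2.2) hX) 1) 0
    simp only [V] at e2 e3
    simp only [← e2] at e3
    rw [← e1, if_neg (by decide), mul_zero, sub_zero] at e3
    apply chk_out
    simp only [cs] at e3
    exact_mod_cast e3.symm
  · intro F hF hK
    refine hull_ineq F (node_ineq F hF) fun i => hK _ ⟨cs (Xd (tm i)), ?_, ?_⟩
    · refine Prod.ext rfl (Prod.ext ?_ ?_)
      · funext a b
        exact ((h3 i).2 a b).symm
      · funext a b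
        simp only [(h3 i).1, (h3 i).2]
        have := chk_Z i a b
        simp only [V, cs, ← this]
        push_cast
        rfl
    · have := chk_norm i
      simp only [V, cs]
      exact_mod_cast this

end Pool.Agent.H153Z.DcMain
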