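import Pool.Agent.H153Z.FramesZ

set_option autoImplicit false

open Finset Matrix

namespace Pool.Agent.H153Z.Frames

/-- sample points -/
abbrev Om : Type := Bool × Fin 16

/-- the frames -/
noncomputable def u (c : Fin 64) (ω : Om) : Fin 16 → ℝ :=
  fun t => ((sg ω.1 * (qq c t * ch ω.2 t) : ℤ) : ℝ) / 4

/-- the colour vectors -/
def w (c : Fin 64) : Fin 16 → ℝ := fun t => (wi c t : ℝ)

theorem abs_sg (b : Bool) : |sg b| = 1 := by cases b <;> simp [sg]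

theorem abs_u (c : Fin 64) (ω : Om) (t : Fin 16) : |u c ω t| = 1 / 4 := by
  unfold u
  rw [abs_div, ← Int.cast_abs, abs_mul, abs_sg, abs_qc]
  norm_num

theorem uu_le {c c' : Fin 64} (h : c ≠ c') (ω ω' : Om) : |u c ω ⬝ᵥ u c' ω'| ≤ 1 / 2 := by
  have e : u c ω ⬝ᵥ u c' ω' =
      ((sg ω.1 * sg ω'.1 * ∑ t, qq (x64 c c') t * ch (x16 ω.2 ω'.2) t : ℤ) : ℝ) / 16 := by
    unfold u dotProduct
    simp only [← qq_mul, ← ch_mul]
    push_cast
    rw [Finset.mul_sum, Finset.sum_div]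
    exact Finset.sum_congr rfl fun t _ => by ring
  have h2 := walsh_le _ (x64_ne _ _ h) (x16 ω.2 ω'.2)
  rw [e, abs_div, ← Int.cast_abs, abs_mul, abs_mul, abs_sg, abs_sg, one_mul, one_mul]
  have h3 : ((|∑ t, qq (x64 c c') t * ch (x16 ω.2 ω'.2) t| : ℤ) : ℝ) ≤ 8 := by exact_mod_cast h2
  rw [abs_of_pos (by norm_num : (0 : ℝ) < 16), div_le_iff₀ (by norm_num)]
  linarith

theorem uu_le_one (c c' : Fin 64) (ω ω' : Om) : |u c ω ⬝ᵥ u c' ω'| ≤ 1 := by
  unfold dotProduct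
  refine (Finset.abs_sum_le_sum_abs _ _).trans ?_
  simp only [abs_mul, abs_u]
  norm_num

theorem uw_le (c c' : Fin 64) (ω : Om) : |u c ω ⬝ᵥ w c'| ≤ 1 / 4 := by
  unfold dotProduct
  refine (Finset.abs_sum_le_sum_abs _ _).trans ?_
  simp only [abs_mul, abs_u]
  rw [← Finset.mul_sum]
  have : ∑ t, |w c' t| = 1 := by
    unfold w; exact_mod_cast wi_abs c'
  rw [this, mul_one]

theorem ww_self (c : Fin 64) : w c ⬝ᵥ w c = 1 := by
  simp only [w, dotProduct]; exact_mod_cast wi_self c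

theorem ww_le (c c' : Fin 64) : |w c ⬝ᵥ w c'| ≤ 1 := by
  simp only [w, dotProduct]; exact_mod_cast wi_le c c'

theorem second_moment {ι : Type} (s : Finset ι) (f : ι → Fin 16 → ℝ) (hc : s.card = 32)
    (h1 : ∀ t, ∑ a ∈ s, f a t = 0)
    (h2 : ∀ r t, ∑ a ∈ s, f a r * f a t = if r = t then 2 else 0) (α β : ℝ) (v v' : Fin 16 → ℝ) :
    ∑ a ∈ s, (α + v ⬝ᵥ f a) * (β + v' ⬝ᵥ f a) = 32 * (α * β) + 2 * (v ⬝ᵥ v') := by
  have e1 : ∀ v : Fin 16 → ℝ, ∑ a ∈ s, v ⬝ᵥ f a = 0 := by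
    intro v
    unfold dotProduct
    rw [Finset.sum_comm]
    simp only [← Finset.mul_sum, h1, mul_zero, Finset.sum_const_zero]
  have e2 : ∑ a ∈ s, (v ⬝ᵥ f a) * (v' ⬝ᵥ f a) = 2 * (v ⬝ᵥ v') := by
    unfold dotProduct
    simp only [Finset.sum_mul_sum]
    rw [Finset.sum_comm, Finset.mul_sum]
    refine Finset.sum_congr rfl fun r _ => ?_
    rw [Finset.sum_comm]
    have : ∀ t, ∑ a ∈ s, v r * f a r * (v' t * f a t) = v r * v' t * if r = t then 2 else 0 := by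
      intro t
      rw [← h2, Finset.mul_sum]
      exact Finset.sum_congr rfl fun a _ => by ring
    simp only [this, mul_ite, mul_zero, Finset.sum_ite_eq, Finset.mem_univ, if_true]
    ring
  have : ∀ a, (α + v ⬝ᵥ f a) * (β + v' ⬝ᵥ f a) =
      α * β + α * (v' ⬝ᵥ f a) + β * (v ⬝ᵥ f a) + (v ⬝ᵥ f a) * (v' ⬝ᵥ f a) := fun a => by ring
  simp only [this, Finset.sum_add_distrib, ← Finset.mul_sum, e1, e2, Finset.sum_const, hc]
  simp
  ring

theorem moment_u (c : Fin 64) (α β : ℝ) (v v' : Fin 16 → ℝ) :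
    ∑ ω : Om, (α + v ⬝ᵥ u c ω) * (β + v' ⬝ᵥ u c ω) = 32 * (α * β) + 2 * (v ⬝ᵥ v') := by
  refine second_moment univ (u c) (by simp) (fun t => ?_) (fun r t => ?_) α β v v'
  · rw [Fintype.sum_prod_type, Fintype.sum_bool]
    simp only [u, sg]
    rw [← Finset.sum_add_distrib]
    refine Finset.sum_eq_zero fun a _ => ?_
    push_cast; simp; ring
  · have h : ∀ ω : Om, u c ω r * u c ω t =
        ((qq c r * qq c t * (ch ω.2 r * ch ω.2 t) : ℤ) : ℝ) / 16 := by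
      rintro ⟨b, a⟩
      cases b <;> simp only [u, sg] <;> push_cast <;> simp <;> ring
    simp only [h]
    rw [Fintype.sum_prod_type, Fintype.sum_bool, ← Finset.sum_div, ← Int.cast_sum,
      ← Finset.mul_sum, ch_orth]
    split_ifs with hrt
    · subst hrt; rw [qq_sq]; norm_num
    · simp

theorem moment_w (b : Bool) (α β : ℝ) (v v' : Fin 16 → ℝ) :
    ∑ c with ty c = b, (α + v ⬝ᵥ w c) * (β + v' ⬝ᵥ w c) = 32 * (α * β) + 2 * (v ⬝ᵥ v') := by
  refine second_moment _ w (ty_card b) (fun t => ?_) (fun r t => ?_) α β v v'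
  · unfold w; exact_mod_cast wi_sum b t
  · unfold w
    have := wi_orth b r t
    split_ifs at this ⊢ <;> exact_mod_cast this

end Pool.Agent.H153Z.Frames
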