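import Mathlib

set_option autoImplicit false

open Finset Matrix

namespace Pool.Agent.H153Z.Frames

/-- sign of a boolean -/
def sg (b : Bool) : ℤ := if b then -1 else 1

/-- the quadratic forms on the four dimensional space over the field with two elements -/
def qq (m : Fin 64) (t : Fin 16) : ℤ :=
  sg (m.1.testBit 0 && t.1.testBit 0 && t.1.testBit 1) *
  sg (m.1.testBit 1 && t.1.testBit 0 && t.1.testBit 2) *
  sg (m.1.testBit 2 && t.1.testBit 0 && t.1.testBit 3) *
  sg (m.1.testBit 3 && t.1.testBit 1 && t.1.testBit 2) *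
  sg (m.1.testBit 4 && t.1.testBit 1 && t.1.testBit 3) *
  sg (m.1.testBit 5 && t.1.testBit 2 && t.1.testBit 3)

/-- Walsh characters -/
def ch (a t : Fin 16) : ℤ :=
  sg (a.1.testBit 0 && t.1.testBit 0) * sg (a.1.testBit 1 && t.1.testBit 1) *
  sg (a.1.testBit 2 && t.1.testBit 2) * sg (a.1.testBit 3 && t.1.testBit 3)

/-- xor -/
def x64 (m m' : Fin 64) : Fin 64 := ⟨(m.1 ^^^ m'.1) % 64, Nat.mod_lt _ (by norm_num)⟩
/-- xor -/
def x16 (m m' : Fin 16) : Fin 16 := ⟨(m.1 ^^^ m'.1) % 16, Nat.mod_lt _ (by norm_num)⟩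

theorem qq_mul : ∀ m m' : Fin 64, ∀ t, qq m t * qq m' t = qq (x64 m m') t := by decide +kernel
theorem ch_mul : ∀ a a' t : Fin 16, ch a t * ch a' t = ch (x16 a a') t := by decide +kernel
theorem x64_ne : ∀ m m' : Fin 64, m ≠ m' → x64 m m' ≠ 0 := by decide +kernel
theorem walsh_le : ∀ m : Fin 64, m ≠ 0 → ∀ a, |∑ t, qq m t * ch a t| ≤ 8 := by decide +kernel
theorem qq_sq : ∀ m t, qq m t * qq m t = 1 := by decide +kernel
theorem ch_orth : ∀ s t, ∑ a, ch a s * ch a t = if s = t then 16 else 0 := by decide +kernel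
theorem abs_qc : ∀ m a t, |qq m t * ch a t| = 1 := by decide +kernel

/-- the type of a colour -/
def ty (c : Fin 64) : Bool := decide (c.1 < 32)
/-- the signed unit vector of a colour, integer form -/
def wi (c : Fin 64) (t : Fin 16) : ℤ :=
  if t.1 = c.1 % 16 then sg (c.1.testBit 4) else 0

theorem ty_card : ∀ b, (univ.filter fun c => ty c = b).card = 32 := by decide +kernel
theorem wi_sum : ∀ b t, ∑ c with ty c = b, wi c t = 0 := by decide +kernel
theorem wi_orth : ∀ b s t, ∑ c with ty c = b, wi c s * wi c t = if s = t then 2 else 0 := by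
  decide +kernel
theorem wi_self : ∀ c, ∑ t, wi c t * wi c t = 1 := by decide +kernel
theorem wi_le : ∀ c c', |∑ t, wi c t * wi c' t| ≤ 1 := by decide +kernel
theorem wi_abs : ∀ c, ∑ t, |wi c t| = 1 := by decide +kernel

end Pool.Agent.H153Z.Frames
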