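import Pool.Agent.H153Z.Frames
import Pool.Agent.H153Z.Chain2

set_option autoImplicit false

open Finset Matrix MeasureTheory Filter Topology
open scoped ENNReal

namespace Pool.Agent.H153Z.Kern

open Pool.Agent.H153Z.Frames

/-- sequences of sample points -/
abbrev XX : Type := ℕ → Om

/-- the shift -/
def tl (ξ : XX) : XX := fun k => ξ (k + 1)

theorem continuous_tl : Continuous tl := continuous_pi fun k => continuous_apply (k + 1)

/-- indicator of different types -/
noncomputable def dl (i j : Fin 64) : ℝ := if ty i = ty j then 0 else 1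
/-- one step term -/
noncomputable def bb (i j : Fin 64) (a a' : Om) : ℝ :=
  if ty i = ty j then 1 - w i ⬝ᵥ w j else u i a ⬝ᵥ w j - w i ⬝ᵥ u j a'
/-- bound -/
noncomputable def be (i j : Fin 64) : ℝ := if ty i = ty j then 1 - w i ⬝ᵥ w j else 1 / 2
/-- terms of the series -/
noncomputable def tm (i j : Fin 64) (ξ η : XX) (l : ℕ) : ℝ :=
  (∏ k ∈ range l, u i (ξ k) ⬝ᵥ u j (η k)) * bb i j (ξ l) (η l)
/-- the series -/
noncomputable def hh (i j : Fin 64) (ξ η : XX) : ℝ := ∑' l, tm i j ξ η l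

theorem be_nonneg (i j : Fin 64) : 0 ≤ be i j := by
  unfold be
  split_ifs
  · linarith [(abs_le.1 (ww_le i j)).2]
  · norm_num

theorem be_le (i j : Fin 64) : be i j ≤ 2 := by
  unfold be
  split_ifs
  · linarith [(abs_le.1 (ww_le i j)).1]
  · norm_num

theorem abs_bb (i j : Fin 64) (a a' : Om) : |bb i j a a'| ≤ be i j := by
  have := be_nonneg i j
  unfold bb
  unfold be at this ⊢
  split_ifs at this ⊢
  · rw [abs_of_nonneg this]
  · have h1 := abs_le.1 (uw_le i j a)
    have h2 := abs_le.1 (uw_le j i a')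
    rw [dotProduct_comm (w i), abs_le]
    constructor <;> linarith [h1.1, h1.2, h2.1, h2.2]

theorem be_self (i : Fin 64) : be i i = 0 := by simp [be, ww_self]

theorem abs_tm (i j : Fin 64) (ξ η : XX) (l : ℕ) : |tm i j ξ η l| ≤ be i j * (1 / 2) ^ l := by
  unfold tm
  by_cases h : i = j
  · subst h
    have := abs_bb i i (ξ l) (η l)
    rw [be_self] at this ⊢
    rw [abs_nonpos_iff.1 this]; simp
  · rw [abs_mul, mul_comm, Finset.abs_prod]
    refine mul_le_mul (abs_bb _ _ _ _) ?_ (Finset.prod_nonneg fun _ _ => abs_nonneg _)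
      (be_nonneg _ _)
    calc ∏ k ∈ range l, |u i (ξ k) ⬝ᵥ u j (η k)| ≤ ∏ k ∈ range l, (1 / 2 : ℝ) :=
          Finset.prod_le_prod (fun _ _ => abs_nonneg _) fun k _ => uu_le h _ _
      _ = (1 / 2) ^ l := by simp

theorem summable_geo (c : ℝ) : Summable fun l : ℕ => c * (1 / 2 : ℝ) ^ l :=
  summable_geometric_two.mul_left c

theorem summable_tm (i j : Fin 64) (ξ η : XX) : Summable (tm i j ξ η) :=
  Summable.of_norm_bounded (summable_geo (be i j)) (abs_tm i j ξ η)

theorem abs_hh (i j : Fin 64) (ξ η : XX) : |hh i j ξ η| ≤ 2 * be i j := by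
  have := tsum_of_norm_bounded (f := tm i j ξ η) (hasSum_geometric_two.mul_left (be i j))
    (abs_tm i j ξ η)
  rw [mul_comm] at this
  exact this

theorem hh_rec (i j : Fin 64) (ξ η : XX) :
    hh i j ξ η = bb i j (ξ 0) (η 0) + (u i (ξ 0) ⬝ᵥ u j (η 0)) * hh i j (tl ξ) (tl η) := by
  unfold hh
  rw [(summable_tm i j ξ η).tsum_eq_zero_add, ← tsum_mul_left]
  congr 1
  · simp [tm]
  · refine tsum_congr fun l => ?_
    simp only [tm, tl, Finset.prod_range_succ']
    ring

theorem continuous_hh (i j : Fin 64) : Continuous fun z : XX × XX => hh i j z.1 z.2 := by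
  refine continuous_tsum (fun l => ?_) (summable_geo (be i j)) fun l z => abs_tm i j z.1 z.2 l
  have h : ∀ (k : ℕ) (f : Om × Om → ℝ), Continuous fun z : XX × XX => f (z.1 k, z.2 k) :=
    fun k f => continuous_of_discreteTopology.comp (by fun_prop)
  exact (continuous_finsetProd _ fun k _ => h k fun p => u i p.1 ⬝ᵥ u j p.2).mul
    (h l fun p => bb i j p.1 p.2)

theorem hh_self (i : Fin 64) (ξ η : XX) : hh i i ξ η = 0 := by
  have := abs_hh i i ξ η
  rw [be_self, mul_zero] at this
  exact abs_nonpos_iff.1 this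

theorem pp_nonneg (i j : Fin 64) (ξ η : XX) : 0 ≤ hh i j ξ η + dl i j := by
  by_cases h : ty i = ty j
  · by_cases hij : i = j
    · subst hij; simp [hh_self, dl]
    · have h1 := abs_hh i j (tl ξ) (tl η)
      have h2 := uu_le hij (ξ 0) (η 0)
      have h3 : |(u i (ξ 0) ⬝ᵥ u j (η 0)) * hh i j (tl ξ) (tl η)| ≤ 1 / 2 * (2 * be i j) := by
        rw [abs_mul]
        exact mul_le_mul h2 h1 (abs_nonneg _) (by norm_num)
      rw [hh_rec]
      have h4 : bb i j (ξ 0) (η 0) = be i j := by simp [bb, be, h]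
      have h5 : dl i j = 0 := by simp [dl, h]
      linarith [(abs_le.1 h3).1]
  · have h1 := abs_hh i j ξ η
    have h4 : be i j = 1 / 2 := by simp [be, h]
    have h5 : dl i j = 1 := by simp [dl, h]
    linarith [(abs_le.1 h1).1]

/-- uniform measure -/
noncomputable def unif (α : Type) [Fintype α] [Nonempty α] [MeasurableSpace α] : Measure α :=
  (PMF.uniformOfFintype α).toMeasure

instance (α : Type) [Fintype α] [Nonempty α] [MeasurableSpace α] :
    IsProbabilityMeasure (unif α) := by unfold unif; infer_instance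

theorem integral_unif {α : Type} [Fintype α] [Nonempty α] [MeasurableSpace α]
    [MeasurableSingletonClass α] (f : α → ℝ) :
    ∫ a, f a ∂unif α = (∑ a, f a) / Fintype.card α := by
  unfold unif
  rw [PMF.integral_eq_sum, Finset.sum_div]
  refine Finset.sum_congr rfl fun a _ => ?_
  simp [div_eq_inv_mul]

/-- the product measure -/
noncomputable abbrev PP : Measure XX := Measure.infinitePi fun _ : ℕ => unif Om

theorem intg {f : XX → ℝ} (hf : Continuous f) : Integrable f PP :=
  hf.integrable_of_hasCompactSupport (HasCompactSupport.of_compactSpace f)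

theorem integral_cons {Φ : Om → XX → ℝ} (hΦ : ∀ a, Continuous (Φ a)) :
    ∫ η, Φ (η 0) (tl η) ∂PP = ∫ η, (∑ a, Φ a η) / 32 ∂PP := by
  have h1 : Continuous fun z : Om × XX => Φ z.1 z.2 := continuous_prod_of_discrete_left.2 hΦ
  have h2 : Continuous fun η : XX => Φ (η 0) (tl η) :=
    h1.comp (f := fun η : XX => (η 0, tl η)) ((continuous_apply 0).prodMk continuous_tl)
  have mp : MeasurePreserving (fun z : XX × Om => Function.update z.1 0 z.2) (PP.prod (unif Om))
      PP := Chain.mp_update (unif Om) (0 : ℕ)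
  have h3 : Continuous fun η : XX => (∑ a, Φ a η) / 32 :=
    (continuous_finsetSum _ fun a _ => hΦ a).div_const _
  have ht : (PP).map tl = PP :=
    Measure.map_infinitePi_infinitePi_of_inj (P := fun _ : ℕ => unif Om) (f := fun k => k + 1)
      (add_left_injective 1)
  calc ∫ η, Φ (η 0) (tl η) ∂PP
      = ∫ z : XX × Om, Φ (Function.update z.1 0 z.2 0) (tl (Function.update z.1 0 z.2))
          ∂(PP.prod (unif Om)) := by
        conv_lhs => rw [← mp.map_eq]
        rw [integral_map mp.measurable.aemeasurable h2.aestronglyMeasurable]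
    _ = ∫ η, (∑ a, Φ a (tl η)) / 32 ∂PP := by
        rw [integral_prod (fun z : XX × Om =>
          Φ (Function.update z.1 0 z.2 0) (tl (Function.update z.1 0 z.2)))
          (mp.integrable_comp_of_integrable (intg h2))]
        refine integral_congr_ae (Eventually.of_forall fun η => ?_)
        have : ∀ a, tl (Function.update η 0 a) = tl η := fun a => by
          funext k; simp [tl]
        simp only [Function.update_self, this]
        rw [integral_unif]
        simp
    _ = _ := by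
        conv_rhs => rw [← ht]
        rw [integral_map continuous_tl.measurable.aemeasurable h3.aestronglyMeasurable]

/-- constant part, left form -/
noncomputable def al (i j : Fin 64) (a : Om) : ℝ :=
  if ty i = ty j then 1 - w i ⬝ᵥ w j else u i a ⬝ᵥ w j
/-- constant part, right form -/
noncomputable def ar (j k : Fin 64) (c : Om) : ℝ :=
  if ty j = ty k then 1 - w k ⬝ᵥ w j else -(u k c ⬝ᵥ w j)

theorem hh_left (i j : Fin 64) (ξ η : XX) : hh i j ξ η =
    al i j (ξ 0) + (hh i j (tl ξ) (tl η) • u i (ξ 0) - dl i j • w i) ⬝ᵥ u j (η 0) := by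
  rw [hh_rec, sub_dotProduct, smul_dotProduct, smul_dotProduct]
  unfold bb al dl
  split_ifs <;> simp only [smul_eq_mul] <;> ring

theorem hh_right (j k : Fin 64) (η ζ : XX) : hh j k η ζ =
    ar j k (ζ 0) + (hh j k (tl η) (tl ζ) • u k (ζ 0) + dl j k • w k) ⬝ᵥ u j (η 0) := by
  rw [hh_rec, add_dotProduct, smul_dotProduct, smul_dotProduct]
  unfold bb ar dl
  rw [dotProduct_comm (u j (η 0)) (u k (ζ 0)), dotProduct_comm (u j (η 0)) (w k),
    dotProduct_comm (w j) (u k (ζ 0)), dotProduct_comm (w j) (w k)]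
  split_ifs <;> simp only [smul_eq_mul] <;> ring

theorem cont_l (i j : Fin 64) (ξ : XX) : Continuous fun η => hh i j ξ η :=
  (continuous_hh i j).comp (f := fun η => (ξ, η)) (by fun_prop)

theorem cont_r (i j : Fin 64) (ζ : XX) : Continuous fun η => hh i j η ζ :=
  (continuous_hh i j).comp (f := fun η => (η, ζ)) (by fun_prop)

theorem gen_int (j : Fin 64) (α β : ℝ) {V V' : XX → Fin 16 → ℝ} (hV : Continuous V)
    (hV' : Continuous V') :
    ∫ η, (α + V (tl η) ⬝ᵥ u j (η 0)) * (β + V' (tl η) ⬝ᵥ u j (η 0)) ∂PP =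
      α * β + (∫ η, V η ⬝ᵥ V' η ∂PP) / 16 := by
  rw [integral_cons (Φ := fun a η => (α + V η ⬝ᵥ u j a) * (β + V' η ⬝ᵥ u j a))
    fun a => by fun_prop]
  simp only [moment_u]
  have : ∀ η, (32 * (α * β) + 2 * (V η ⬝ᵥ V' η)) / 32 = α * β + (V η ⬝ᵥ V' η) / 16 :=
    fun η => by ring
  simp only [this]
  rw [integral_add (integrable_const _) (intg (by fun_prop)), integral_div]
  simp

theorem int_l (i j : Fin 64) (ξ : XX) : ∫ η, hh i j ξ η ∂PP = al i j (ξ 0) := by
  have := gen_int j (al i j (ξ 0)) 1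
    (V := fun η => hh i j (tl ξ) η • u i (ξ 0) - dl i j • w i) (V' := fun _ => 0)
    (((cont_l i j _).smul continuous_const).sub continuous_const) continuous_const
  simp only [← hh_left] at this
  simpa using this

theorem int_r (j k : Fin 64) (ζ : XX) : ∫ η, hh j k η ζ ∂PP = ar j k (ζ 0) := by
  have := gen_int j (ar j k (ζ 0)) 1
    (V := fun η => hh j k η (tl ζ) • u k (ζ 0) + dl j k • w k) (V' := fun _ => 0)
    (((cont_r j k _).smul continuous_const).add continuous_const) continuous_const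
  simp only [← hh_right] at this
  simpa using this

theorem int_lr (i j k : Fin 64) (ξ ζ : XX) : ∫ η, hh i j ξ η * hh j k η ζ ∂PP =
    al i j (ξ 0) * ar j k (ζ 0) +
      ((u i (ξ 0) ⬝ᵥ u k (ζ 0)) * ∫ η, hh i j (tl ξ) η * hh j k η (tl ζ) ∂PP
        + (u i (ξ 0) ⬝ᵥ w k) * (al i j (ξ 1) * dl j k)
        - (w i ⬝ᵥ u k (ζ 0)) * (dl i j * ar j k (ζ 1))
        - (w i ⬝ᵥ w k) * (dl i j * dl j k)) / 16 := by
  have := gen_int j (al i j (ξ 0)) (ar j k (ζ 0))
    (V := fun η => hh i j (tl ξ) η • u i (ξ 0) - dl i j • w i)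
    (V' := fun η => hh j k η (tl ζ) • u k (ζ 0) + dl j k • w k)
    (((cont_l i j _).smul continuous_const).sub continuous_const)
    (((cont_r j k _).smul continuous_const).add continuous_const)
  simp only [← hh_left, ← hh_right] at this
  rw [this]
  congr 2
  have e : ∀ η, (hh i j (tl ξ) η • u i (ξ 0) - dl i j • w i) ⬝ᵥ
      (hh j k η (tl ζ) • u k (ζ 0) + dl j k • w k) =
      (u i (ξ 0) ⬝ᵥ u k (ζ 0)) * (hh i j (tl ξ) η * hh j k η (tl ζ))
        + ((u i (ξ 0) ⬝ᵥ w k) * dl j k) * hh i j (tl ξ) η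
        - ((w i ⬝ᵥ u k (ζ 0)) * dl i j) * hh j k η (tl ζ)
        - (w i ⬝ᵥ w k) * (dl i j * dl j k) := by
    intro η
    simp only [sub_dotProduct, dotProduct_add, smul_dotProduct, dotProduct_smul, smul_eq_mul]
    ring
  have c1 := cont_l i j (tl ξ)
  have c2 := cont_r j k (tl ζ)
  simp only [e]
  rw [integral_sub (intg (by fun_prop)) (integrable_const _),
    integral_sub (intg (by fun_prop)) (intg (by fun_prop)),
    integral_add (intg (by fun_prop)) (intg (by fun_prop)), integral_const_mul,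
    integral_const_mul, integral_const_mul, int_l, int_r]
  simp only [tl, zero_add, integral_const, probReal_univ, one_smul]
  ring

/-- indicator of the type -/
noncomputable def sa (i : Fin 64) (b : Bool) : ℝ := if ty i = b then 1 else 0
/-- linear part, left -/
noncomputable def vl (i : Fin 64) (b : Bool) (a : Om) : Fin 16 → ℝ :=
  if ty i = b then -w i else u i a
/-- linear part, right -/
noncomputable def vr (k : Fin 64) (b : Bool) (c : Om) : Fin 16 → ℝ :=
  if ty k = b then -w k else -u k c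

theorem al_eq (i j : Fin 64) (a : Om) : al i j a = sa i (ty j) + vl i (ty j) a ⬝ᵥ w j := by
  unfold al sa vl
  split_ifs <;> simp [sub_eq_add_neg]

theorem ar_eq (j k : Fin 64) (c : Om) : ar j k c = sa k (ty j) + vr k (ty j) c ⬝ᵥ w j := by
  unfold ar sa vr
  by_cases h : ty j = ty k
  · simp [h, sub_eq_add_neg]
  · simp [h, Ne.symm h]

theorem dl_eq (i j : Fin 64) : dl i j = (1 - sa i (ty j)) + (0 : Fin 16 → ℝ) ⬝ᵥ w j := by
  unfold dl sa
  split_ifs <;> simp

theorem dl_eq' (j k : Fin 64) : dl j k = (1 - sa k (ty j)) + (0 : Fin 16 → ℝ) ⬝ᵥ w j := by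
  unfold dl sa
  by_cases h : ty j = ty k
  · simp [h]
  · simp [h, Ne.symm h]

theorem sum_col (α β : Bool → ℝ) (v v' : Bool → Fin 16 → ℝ) :
    ∑ j, (α (ty j) + v (ty j) ⬝ᵥ w j) * (β (ty j) + v' (ty j) ⬝ᵥ w j) =
      ∑ b, (32 * (α b * β b) + 2 * (v b ⬝ᵥ v' b)) := by
  rw [← Finset.sum_fiberwise univ ty]
  refine Finset.sum_congr rfl fun b _ => ?_
  rw [← moment_w b]
  refine Finset.sum_congr rfl fun j hj => ?_
  rw [(Finset.mem_filter.1 hj).2]

theorem S1 (i k : Fin 64) (a c : Om) : ∑ j, al i j a * ar j k c =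
    if ty i = ty k then 32 + 2 * (w i ⬝ᵥ w k) - 2 * (u i a ⬝ᵥ u k c)
    else 2 * (w i ⬝ᵥ u k c) - 2 * (u i a ⬝ᵥ w k) := by
  simp only [al_eq, ar_eq]
  rw [sum_col (sa i) (sa k) (fun b => vl i b a) (fun b => vr k b c), Fintype.sum_bool]
  unfold sa vl vr
  cases ty i <;> cases ty k <;> simp <;> ring

theorem S2 (i k : Fin 64) (a : Om) : ∑ j, al i j a * dl j k =
    if ty i = ty k then 0 else 32 := by
  simp only [al_eq, dl_eq' _ k]
  rw [sum_col (sa i) (fun b => 1 - sa k b) (fun b => vl i b a) (fun _ => 0), Fintype.sum_bool]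
  unfold sa
  cases ty i <;> cases ty k <;> simp

theorem S3 (i k : Fin 64) (c : Om) : ∑ j, dl i j * ar j k c =
    if ty i = ty k then 0 else 32 := by
  simp only [ar_eq, dl_eq i]
  rw [sum_col (fun b => 1 - sa i b) (sa k) (fun _ => 0) (fun b => vr k b c), Fintype.sum_bool]
  unfold sa
  cases ty i <;> cases ty k <;> simp

theorem S4 (i k : Fin 64) : ∑ j, dl i j * dl j k = if ty i = ty k then 32 else 0 := by
  have : ∀ j, dl i j * dl j k = ((1 - sa i (ty j)) + (0 : Fin 16 → ℝ) ⬝ᵥ w j) *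
      ((1 - sa k (ty j)) + (0 : Fin 16 → ℝ) ⬝ᵥ w j) := fun j => by rw [← dl_eq, ← dl_eq']
  simp only [this]
  rw [sum_col (fun b => 1 - sa i b) (fun b => 1 - sa k b) (fun _ => 0) (fun _ => 0),
    Fintype.sum_bool]
  unfold sa
  cases ty i <;> cases ty k <;> simp

theorem S5 (i : Fin 64) (a : Om) : ∑ j, (al i j a + dl i j) = 64 := by
  have : ∀ j, al i j a + dl i j = (1 + vl i (ty j) a ⬝ᵥ w j) * (1 + (0 : Fin 16 → ℝ) ⬝ᵥ w j) :=
    fun j => by rw [al_eq, dl_eq]; simp; ring
  simp only [this]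
  rw [sum_col (fun _ => 1) (fun _ => 1) (fun b => vl i b a) (fun _ => 0), Fintype.sum_bool]
  simp; norm_num

theorem S6 (k : Fin 64) (c : Om) : ∑ j, (ar j k c + dl j k) = 64 := by
  have : ∀ j, ar j k c + dl j k = (1 + vr k (ty j) c ⬝ᵥ w j) * (1 + (0 : Fin 16 → ℝ) ⬝ᵥ w j) :=
    fun j => by rw [ar_eq, dl_eq']; simp; ring
  simp only [this]
  rw [sum_col (fun _ => 1) (fun _ => 1) (fun b => vr k b c) (fun _ => 0), Fintype.sum_bool]
  simp; norm_num

/-- the defect -/
noncomputable def De (i k : Fin 64) (ξ ζ : XX) : ℝ :=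
  (∑ j, ∫ η, hh i j ξ η * hh j k η ζ ∂PP) - if ty i = ty k then 32 else 0

theorem De_rec (i k : Fin 64) (ξ ζ : XX) :
    De i k ξ ζ = (u i (ξ 0) ⬝ᵥ u k (ζ 0)) / 16 * De i k (tl ξ) (tl ζ) := by
  unfold De
  conv_lhs => simp only [int_lr i _ k ξ ζ]
  rw [Finset.sum_add_distrib, ← Finset.sum_div, Finset.sum_sub_distrib, Finset.sum_sub_distrib,
    Finset.sum_add_distrib, ← Finset.mul_sum, ← Finset.mul_sum, ← Finset.mul_sum,
    ← Finset.mul_sum, S1, S2, S3, S4]
  split_ifs <;> ring

theorem De_bound (i k : Fin 64) (ξ ζ : XX) : |De i k ξ ζ| ≤ 64 * 16 + 32 := by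
  unfold De
  refine (abs_sub _ _).trans (add_le_add ?_ ?_)
  · refine (Finset.abs_sum_le_sum_abs _ _).trans ?_
    have : ∀ j, |∫ η, hh i j ξ η * hh j k η ζ ∂PP| ≤ 16 := fun j => by
      have := norm_integral_le_of_norm_le_const (μ := PP)
        (f := fun η => hh i j ξ η * hh j k η ζ) (C := 16) (Eventually.of_forall fun η => by
          have h1 := abs_hh i j ξ η
          have h2 := abs_hh j k η ζ
          have h3 := be_le i j
          have h4 := be_le j k
          rw [Real.norm_eq_abs, abs_mul]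
          calc _ ≤ 4 * 4 := mul_le_mul (by linarith) (by linarith) (abs_nonneg _) (by norm_num)
            _ = (16 : ℝ) := by norm_num)
      simpa using this
    calc _ ≤ ∑ j : Fin 64, (16 : ℝ) := Finset.sum_le_sum fun j _ => this j
      _ = 64 * 16 := by simp
  · split_ifs <;> simp

theorem De_zero (i k : Fin 64) (ξ ζ : XX) : De i k ξ ζ = 0 := by
  have h : ∀ n : ℕ, ∀ ξ ζ, |De i k ξ ζ| ≤ (64 * 16 + 32) * (1 / 16) ^ n := by
    intro n
    induction n with
    | zero => intro ξ ζ; simpa using De_bound i k ξ ζ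
    | succ n ih =>
      intro ξ ζ
      rw [De_rec, abs_mul, pow_succ, ← mul_assoc, mul_comm]
      refine mul_le_mul (ih _ _) ?_ (abs_nonneg _) (by positivity)
      rw [abs_div, abs_of_pos (by norm_num : (0 : ℝ) < 16)]
      gcongr
      exact uu_le_one _ _ _ _
  have ht : Tendsto (fun n : ℕ => (64 * 16 + 32 : ℝ) * (1 / 16) ^ n) atTop (𝓝 0) := by
    simpa using (tendsto_pow_atTop_nhds_zero_of_lt_one (r := (1 / 16 : ℝ)) (by norm_num)
      (by norm_num)).const_mul (64 * 16 + 32 : ℝ)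
  exact abs_nonpos_iff.1 (ge_of_tendsto' ht fun n => h n ξ ζ)

/-- the state space -/
abbrev SS : Type := Fin 64 × XX

/-- the stationary law -/
noncomputable abbrev QQ : Measure SS := (unif (Fin 64)).prod PP

/-- the transition density -/
noncomputable def pp (x y : SS) : ℝ := hh x.1 y.1 x.2 y.2 + dl x.1 y.1

theorem continuous_pp : Continuous fun z : SS × SS => pp z.1 z.2 := by
  have h1 : Continuous fun z : (Fin 64 × Fin 64) × (XX × XX) =>
      hh z.1.1 z.1.2 z.2.1 z.2.2 + dl z.1.1 z.1.2 :=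
    continuous_prod_of_discrete_left.2 fun c => (continuous_hh c.1 c.2).add (continuous_const (y := dl c.1 c.2))
  exact h1.comp (f := fun z : SS × SS => ((z.1.1, z.2.1), (z.1.2, z.2.2))) (by fun_prop)

theorem intgS {f : SS → ℝ} (hf : Continuous f) : Integrable f QQ :=
  hf.integrable_of_hasCompactSupport (HasCompactSupport.of_compactSpace f)

theorem integral_S {f : SS → ℝ} (hf : Continuous f) :
    ∫ y, f y ∂QQ = (∑ j, ∫ η, f (j, η) ∂PP) / 64 := by
  rw [integral_prod _ (intgS hf), integral_unif]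
  simp

theorem cont_pl (x : SS) : Continuous fun y => pp x y :=
  continuous_pp.comp (f := fun y => (x, y)) (by fun_prop)

theorem cont_pr (x : SS) : Continuous fun y => pp y x :=
  continuous_pp.comp (f := fun y => (y, x)) (by fun_prop)

theorem row (x : SS) : ∫ y, pp x y ∂QQ = 1 := by
  rw [integral_S (cont_pl x)]
  have : ∀ j, ∫ η, pp x (j, η) ∂PP = al x.1 j (x.2 0) + dl x.1 j := fun j => by
    simp only [pp]
    rw [integral_add (intg (cont_l _ _ _)) (integrable_const _), int_l]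
    simp
  simp only [this, S5]
  norm_num

theorem col (z : SS) : ∫ y, pp y z ∂QQ = 1 := by
  rw [integral_S (cont_pr z)]
  have : ∀ j, ∫ η, pp (j, η) z ∂PP = ar j z.1 (z.2 0) + dl j z.1 := fun j => by
    simp only [pp]
    rw [integral_add (intg (cont_r _ _ _)) (integrable_const _), int_r]
    simp
  simp only [this, S6]
  norm_num

theorem sq (x z : SS) : ∫ y, pp x y * pp y z ∂QQ = 1 := by
  rw [integral_S (f := fun y => pp x y * pp y z) ((cont_pl x).mul (cont_pr z))]
  have : ∀ j, ∫ η, pp x (j, η) * pp (j, η) z ∂PP =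
      ∫ η, hh x.1 j x.2 η * hh j z.1 η z.2 ∂PP + al x.1 j (x.2 0) * dl j z.1
        + dl x.1 j * ar j z.1 (z.2 0) + dl x.1 j * dl j z.1 := fun j => by
    have c1 := cont_l x.1 j x.2
    have c2 := cont_r j z.1 z.2
    have e : ∀ η, pp x (j, η) * pp (j, η) z = hh x.1 j x.2 η * hh j z.1 η z.2
        + hh x.1 j x.2 η * dl j z.1 + dl x.1 j * hh j z.1 η z.2 + dl x.1 j * dl j z.1 :=
      fun η => by unfold pp; ring
    simp only [e]
    rw [integral_add (intg (by fun_prop)) (integrable_const _),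
      integral_add (intg (by fun_prop)) (intg (by fun_prop)),
      integral_add (intg (by fun_prop)) (intg (by fun_prop)), integral_const_mul,
      integral_mul_const, int_l, int_r]
    simp
  have h0 := De_zero x.1 z.1 x.2 z.2
  unfold De at h0
  simp only [this, Finset.sum_add_distrib, S2, S3, S4]
  rw [sub_eq_zero.1 h0]
  split_ifs <;> norm_num

theorem lint {f : SS → ℝ} (hf : Continuous f) (h0 : ∀ y, 0 ≤ f y) (h1 : ∫ y, f y ∂QQ = 1) :
    ∫⁻ y, ENNReal.ofReal (f y) ∂QQ = 1 := by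
  rw [← ofReal_integral_eq_lintegral_ofReal (intgS hf) (Eventually.of_forall h0), h1,
    ENNReal.ofReal_one]

theorem main :
    ∃ (S : Type) (_ : MetricSpace S) (_ : CompactSpace S) (_ : MeasurableSpace S)
      (_ : BorelSpace S) (Ω : Type) (_ : MeasurableSpace Ω) (μ : MeasureTheory.Measure Ω)
      (X : ℤ → Ω → S) (k : ℤ) (ε : ℝ),
      MeasureTheory.IsProbabilityMeasure μ ∧
      (∀ i, Measurable (X i)) ∧
      (∀ n : ℤ, μ.map (fun ω (i : ℤ) => X (i + n) ω) = μ.map (fun ω (i : ℤ) => X i ω)) ∧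
      (∀ (n : ℤ) (A : Set S), MeasurableSet A →
        MeasureTheory.condExp (⨆ (m : ℤ) (_ : m ≤ n), MeasurableSpace.comap (X m) inferInstance) μ
          (Set.indicator (X (n + 1) ⁻¹' A) (fun _ => (1 : ℝ)))
        =ᵐ[μ] MeasureTheory.condExp (MeasurableSpace.comap (X n) inferInstance) μ
          (Set.indicator (X (n + 1) ⁻¹' A) (fun _ => (1 : ℝ)))) ∧
      0 < k ∧ 0 < ε ∧
      ProbabilityTheory.IndepFun (X 0) (X k) μ ∧
      ∀ᵐ ω ∂μ, ε ≤ dist (X 0 ω) (X 1 ω) := by
  have : OpensMeasurableSpace (SS × SS) := Prod.opensMeasurableSpace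
  have hmeas : Measurable fun z : SS × SS => ENNReal.ofReal (pp z.1 z.2) :=
    continuous_pp.measurable.ennreal_ofReal
  let _ : MetricSpace SS := TopologicalSpace.metrizableSpaceMetric SS
  have hp0 : ∀ x y : SS, 0 ≤ pp x y := fun x y => pp_nonneg _ _ _ _
  have hu : UniformContinuous (fun x : SS => ((x.1 : ℕ) : ℝ)) :=
    CompactSpace.uniformContinuous_of_continuous
      ((continuous_of_discreteTopology (f := fun c : Fin 64 => ((c : ℕ) : ℝ))).comp continuous_fst)
  obtain ⟨ε, hε, hε'⟩ := Metric.uniformContinuous_iff.1 hu 1 one_pos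
  refine Chain.of_kernel QQ (fun x y => ENNReal.ofReal (pp x y))
    hmeas (fun x => lint (cont_pl x) (hp0 x) (row x))
    (fun y => lint (cont_pr y) (fun x => hp0 x y) (col y)) (fun x z => ?_) ε hε fun x y hxy => ?_
  · simp only [← ENNReal.ofReal_mul (hp0 _ _)]
    exact lint ((cont_pl x).mul (cont_pr z)) (fun y => mul_nonneg (hp0 _ _) (hp0 _ _)) (sq x z)
  · have h1 := hε' hxy
    have h2 : x.1 = y.1 := by
      rw [Real.dist_eq, abs_lt] at h1
      have h3 : ((x.1 : ℕ) : ℝ) < (y.1 : ℕ) + 1 := by linarith [h1.2]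
      have h4 : ((y.1 : ℕ) : ℝ) < (x.1 : ℕ) + 1 := by linarith [h1.1]
      have h5 : (x.1 : ℕ) < y.1 + 1 := by exact_mod_cast h3
      have h6 : (y.1 : ℕ) < x.1 + 1 := by exact_mod_cast h4
      exact Fin.ext (by omega)
    simp [pp, h2, hh_self, dl]

end Pool.Agent.H153Z.Kern
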