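import Mathlib

set_option autoImplicit false

open Filter Set Topology

namespace Pool.Agent.H153Z.Markov

/-- Central extension of the free abelian group on `ι` by `ℤ`, given by a matrix `M`. -/
@[ext]
structure Heis {ι : Type} (M : ι → ι → ℤ) where
  v : ι →₀ ℤ
  t : ℤ

variable {ι : Type} {M : ι → ι → ℤ}

/-- The bilinear form attached to the matrix `M`. -/
noncomputable def form (M : ι → ι → ℤ) : (ι →₀ ℤ) →ₗ[ℤ] (ι →₀ ℤ) →ₗ[ℤ] ℤ :=
  Finsupp.linearCombination ℤ (fun i => Finsupp.linearCombination ℤ (M i))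

theorem form_single (i j : ι) : form M (Finsupp.single i 1) (Finsupp.single j 1) = M i j := by
  simp [form]

theorem form_eq_zero {v w : ι →₀ ℤ} (h : ∀ i ∈ v.support, ∀ j ∈ w.support, M i j = 0) :
    form M v w = 0 := by
  unfold form
  rw [Finsupp.linearCombination_apply, Finsupp.sum, LinearMap.sum_apply]
  refine Finset.sum_eq_zero fun i hi => ?_
  rw [LinearMap.smul_apply, Finsupp.linearCombination_apply, Finsupp.sum,
    Finset.sum_eq_zero fun j hj => by rw [h i hi j hj, smul_zero], smul_zero]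

noncomputable instance : Mul (Heis M) := ⟨fun a b => ⟨a.v + b.v, a.t + b.t + form M a.v b.v⟩⟩
noncomputable instance : One (Heis M) := ⟨⟨0, 0⟩⟩
noncomputable instance : Inv (Heis M) := ⟨fun a => ⟨-a.v, -a.t + form M a.v a.v⟩⟩

@[simp] theorem mul_v (a b : Heis M) : (a * b).v = a.v + b.v := rfl
@[simp] theorem mul_t (a b : Heis M) : (a * b).t = a.t + b.t + form M a.v b.v := rfl
@[simp] theorem one_v : (1 : Heis M).v = 0 := rfl
@[simp] theorem one_t : (1 : Heis M).t = 0 := rfl
@[simp] theorem inv_v (a : Heis M) : (a⁻¹).v = -a.v := rfl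
@[simp] theorem inv_t (a : Heis M) : (a⁻¹).t = -a.t + form M a.v a.v := rfl

noncomputable instance : Group (Heis M) :=
  Group.ofLeftAxioms
    (fun a b c => by
      refine Heis.ext ?_ ?_
      · simp [add_assoc]
      · simp only [mul_t, mul_v, map_add, LinearMap.add_apply]; ring)
    (fun a => by refine Heis.ext ?_ ?_ <;> simp)
    (fun a => by refine Heis.ext ?_ ?_ <;> simp)

/-- basis element -/
noncomputable def gen (M : ι → ι → ℤ) (i : ι) : Heis M := ⟨Finsupp.single i 1, 0⟩

/-- the central generator -/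
noncomputable def zz (M : ι → ι → ℤ) : Heis M := ⟨0, 1⟩

theorem zz_ne_one : zz M ≠ 1 := by
  intro h
  have := congrArg Heis.t h
  simp [zz] at this

theorem comm_gen {i j : ι} (h : M i j = 1) (h' : M j i = 0) :
    gen M i * gen M j * (gen M i)⁻¹ * (gen M j)⁻¹ = zz M := by
  refine Heis.ext ?_ ?_
  · simp [zz]
  · simp only [mul_t, mul_v, inv_t, inv_v, gen, zz, map_add, map_neg, LinearMap.add_apply,
      LinearMap.neg_apply, form_single, h, h']
    ring

/-- the subgroup of elements supported on `s '' A` -/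
def nb (M : ι → ι → ℤ) (s : ℕ → ι) (A : Set ℕ) : Set (Heis M) :=
  {g | g.t = 0 ∧ ∀ i ∈ g.v.support, ∃ n ∈ A, s n = i}

theorem nb_mono {s : ℕ → ι} {A B : Set ℕ} (h : A ⊆ B) : nb M s A ⊆ nb M s B := by
  rintro g ⟨h1, h2⟩
  exact ⟨h1, fun i hi => (h2 i hi).imp fun n hn => ⟨h hn.1, hn.2⟩⟩

theorem one_mem_closure_markov (F : Filter ℕ) [F.NeBot] (s : ℕ → ι)
    (h0 : ∀ n m, M (s n) (s m) = 0)
    (h1 : ∀ j, ∀ᶠ n in F, M (s n) j = 0 ∧ M j (s n) = 0)
    (h2 : ∀ j, ∀ᶠ n in F, s n ≠ j) :
    (1 : Heis M) ∈ @closure (Heis M)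
      (sSup {s : TopologicalSpace (Heis M) | @IsTopologicalGroup _ s _ ∧ @T2Space _ s})
      (range fun n => gen M (s n)) := by
  classical
  have hz : ∀ {A B : Set ℕ} {a b : Heis M}, a ∈ nb M s A → b ∈ nb M s B → form M a.v b.v = 0 := by
    intro A B a b ha hb
    refine form_eq_zero fun i hi j hj => ?_
    obtain ⟨n, -, rfl⟩ := ha.2 i hi
    obtain ⟨m, -, rfl⟩ := hb.2 j hj
    exact h0 n m
  let B : GroupFilterBasis (Heis M) :=
    { sets := nb M s '' F.sets
      nonempty := ⟨_, univ, univ_mem, rfl⟩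
      inter_sets := by
        rintro _ _ ⟨A, hA, rfl⟩ ⟨A', hA', rfl⟩
        exact ⟨_, ⟨A ∩ A', inter_mem hA hA', rfl⟩,
          subset_inter (nb_mono inter_subset_left) (nb_mono inter_subset_right)⟩
      one' := by
        rintro _ ⟨A, -, rfl⟩
        exact ⟨rfl, by simp⟩
      mul' := by
        rintro _ ⟨A, hA, rfl⟩
        refine ⟨_, ⟨A, hA, rfl⟩, ?_⟩
        rintro _ ⟨a, ha, b, hb, rfl⟩
        refine ⟨by simp [ha.1, hb.1, hz ha hb], fun i hi => ?_⟩
        rcases Finset.mem_union.1 (Finsupp.support_add hi) with h | h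
        · exact ha.2 i h
        · exact hb.2 i h
      inv' := by
        rintro _ ⟨A, hA, rfl⟩
        refine ⟨_, ⟨A, hA, rfl⟩, fun a ha => ?_⟩
        refine ⟨by simp [ha.1, hz ha ha], fun i hi => ha.2 i (by simpa using hi)⟩
      conj' := by
        rintro g _ ⟨A, hA, rfl⟩
        have hA' : ∀ᶠ n in F, ∀ j ∈ g.v.support, M (s n) j = 0 ∧ M j (s n) = 0 :=
          (Filter.eventually_all_finset _).2 fun j _ => h1 j
        refine ⟨_, ⟨A ∩ {n | ∀ j ∈ g.v.support, M (s n) j = 0 ∧ M j (s n) = 0},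
          inter_mem hA hA', rfl⟩, fun a ha => ?_⟩
        have e1 : form M g.v a.v = 0 := form_eq_zero fun i hi j hj => by
          obtain ⟨n, hn, rfl⟩ := ha.2 j hj
          exact (hn.2 i hi).2
        have e2 : form M a.v g.v = 0 := form_eq_zero fun i hi j hj => by
          obtain ⟨n, hn, rfl⟩ := ha.2 i hi
          exact (hn.2 j hj).1
        have : g * a * g⁻¹ = a := by
          refine Heis.ext ?_ ?_
          · simp
          · simp only [mul_t, mul_v, inv_t, inv_v, map_add, map_neg, LinearMap.add_apply, e1, e2]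
            ring
        show g * a * g⁻¹ ∈ nb M s A
        rw [this]
        exact nb_mono inter_subset_left ha }
  have hT2 : @T2Space _ B.topology := by
    refine (@GroupFilterBasis.t2Space_iff_sInter_subset _ _ B.topology B rfl).2 fun g hg => ?_
    have hg' : ∀ A ∈ F, g ∈ nb M s A := fun A hA => hg _ ⟨A, hA, rfl⟩
    refine Heis.ext ?_ (hg' univ univ_mem).1
    ext i
    by_contra hi
    obtain ⟨n, hn, hn'⟩ := (hg' _ (h2 i)).2 i (by simpa using hi)
    exact hn hn'
  have hle : B.topology ≤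
      sSup {s : TopologicalSpace (Heis M) | @IsTopologicalGroup _ s _ ∧ @T2Space _ s} :=
    le_sSup ⟨B.isTopologicalGroup, hT2⟩
  refine closure.mono hle ?_
  let := B.topology
  rw [mem_closure_iff_nhds_basis B.nhds_one_hasBasis]
  rintro _ ⟨A, hA, rfl⟩
  obtain ⟨n, hn⟩ := Filter.nonempty_of_mem hA
  refine ⟨_, ⟨n, rfl⟩, rfl, fun i hi => ⟨n, hn, ?_⟩⟩
  have := Finsupp.support_single_subset hi
  exact (Finset.mem_singleton.1 this).symm

/-- the free ultrafilter -/
noncomputable abbrev UU : Ultrafilter ℕ := hyperfilter ℕ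

/-- index type -/
abbrev Idx : Type := ℕ ⊕ ℕ ⊕ {D : Set ℕ // D ∉ UU}

open Classical in
/-- the commutation matrix -/
noncomputable def MM : Idx → Idx → ℤ
  | .inl n, .inr (.inl m) => if n = m then 1 else 0
  | .inl n, .inr (.inr D) => if n ∈ D.1 then 1 else 0
  | .inr (.inr D), .inr (.inl m) => if m ∈ D.1 then 1 else 0
  | _, _ => 0

theorem ev_ne (m : ℕ) : ∀ᶠ n in (UU : Filter ℕ), n ≠ m :=
  (Filter.eventually_cofinite_ne m).filter_mono hyperfilter_le_cofinite

theorem ev_notMem (D : {D : Set ℕ // D ∉ UU}) : ∀ᶠ n in (UU : Filter ℕ), n ∉ D.1 :=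
  Ultrafilter.compl_mem_iff_notMem.2 D.2

theorem card_le : Cardinal.mk (Heis MM) ≤ 2 ^ Cardinal.continuum := by
  have h1 : Cardinal.mk Idx ≤ Cardinal.continuum := by
    have : Cardinal.mk {D : Set ℕ // D ∉ UU} ≤ Cardinal.continuum :=
      (Cardinal.mk_subtype_le _).trans (by simp)
    simp only [Idx, Cardinal.mk_sum, Cardinal.lift_id, Cardinal.mk_nat]
    calc Cardinal.aleph0 + (Cardinal.aleph0 + Cardinal.mk {D : Set ℕ // D ∉ UU})
        ≤ Cardinal.aleph0 + (Cardinal.aleph0 + Cardinal.continuum) := by gcongr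
      _ = Cardinal.continuum := by simp
  have h2 : Cardinal.mk (Heis MM) ≤ Cardinal.mk ((Idx →₀ ℤ) × ℤ) :=
    Cardinal.mk_le_of_injective (f := fun a => (a.v, a.t)) fun a b h =>
      Heis.ext (congrArg Prod.fst h) (congrArg Prod.snd h)
  refine h2.trans (le_trans ?_ (Cardinal.cantor _).le)
  rw [Cardinal.mk_prod, Cardinal.lift_id, Cardinal.lift_id, Cardinal.mk_finsupp_of_infinite,
    Cardinal.mk_int]
  calc max (Cardinal.mk Idx) Cardinal.aleph0 * Cardinal.aleph0
      ≤ Cardinal.continuum * Cardinal.aleph0 := by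
        gcongr
        exact max_le h1 Cardinal.aleph0_le_continuum
    _ = Cardinal.continuum := by simp

theorem not_both (t : TopologicalSpace (Heis MM)) [IsTopologicalGroup (Heis MM)]
    [T2Space (Heis MM)]
    (hx : (1 : Heis MM) ∈ closure (range fun n => gen MM (.inl n)))
    (hy : (1 : Heis MM) ∈ closure (range fun n => gen MM (.inr (.inl n)))) : False := by
  have hc : Continuous fun p : Heis MM × Heis MM => p.1 * p.2 * p.1⁻¹ * p.2⁻¹ := by fun_prop
  have hopen : IsOpen {p : Heis MM × Heis MM | p.1 * p.2 * p.1⁻¹ * p.2⁻¹ ≠ zz MM} :=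
    (isOpen_compl_singleton (x := zz MM)).preimage hc
  obtain ⟨V, hV, W, hW, hVW⟩ := mem_nhds_prod_iff.1
    (hopen.mem_nhds (x := (1, 1)) (by simpa using zz_ne_one.symm))
  have hA : {n | gen MM (.inl n) ∈ V} ∈ UU := by
    by_contra hA
    let d := gen MM (.inr (.inr ⟨_, hA⟩))
    have hO : {a : Heis MM | a * d * a⁻¹ * d⁻¹ ≠ zz MM} ∈ 𝓝 (1 : Heis MM) :=
      (hopen.preimage (f := fun a => (a, d)) (by fun_prop)).mem_nhds
        (by simpa using zz_ne_one.symm)
    obtain ⟨_, ⟨h1, h2⟩, n, rfl⟩ := mem_closure_iff_nhds.1 hx _ (inter_mem hV hO)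
    exact h2 (comm_gen (by simpa [MM] using h1) (by simp [MM]))
  have hB : {n | gen MM (.inr (.inl n)) ∈ W} ∈ UU := by
    by_contra hB
    let d := gen MM (.inr (.inr ⟨_, hB⟩))
    have hO : {a : Heis MM | d * a * d⁻¹ * a⁻¹ ≠ zz MM} ∈ 𝓝 (1 : Heis MM) :=
      (hopen.preimage (f := fun a => (d, a)) (by fun_prop)).mem_nhds
        (by simpa using zz_ne_one.symm)
    obtain ⟨_, ⟨h1, h2⟩, n, rfl⟩ := mem_closure_iff_nhds.1 hy _ (inter_mem hW hO)
    exact h2 (comm_gen (by simpa [MM] using h1) (by simp [MM]))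
  obtain ⟨n, h1, h2⟩ := Ultrafilter.nonempty_of_mem (inter_mem hA hB)
  exact hVW (mk_mem_prod h1 h2) (comm_gen (by simp [MM]) (by simp [MM]))

theorem main :
    ¬ (∀ (G : Type) [Group G], Cardinal.mk G ≤ 2 ^ Cardinal.continuum →
      ∀ (E : Set (Set G)), E.Countable →
        ∃ t : TopologicalSpace G, @IsTopologicalGroup G t _ ∧ @T2Space G t ∧
          ∀ e ∈ E, @closure G t e =
            @closure G (sSup {s : TopologicalSpace G | @IsTopologicalGroup G s _ ∧ @T2Space G s}) e) := by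
  intro h
  obtain ⟨t, ht, ht2, hcl⟩ := h (Heis MM) card_le
    {range fun n => gen MM (.inl n), range fun n => gen MM (.inr (.inl n))}
    (Set.toFinite _).countable
  refine not_both t ?_ ?_
  · rw [hcl _ (by simp)]
    refine one_mem_closure_markov (UU : Filter ℕ) (fun n => (.inl n : Idx))
      (fun n m => by simp [MM]) ?_ ?_
    · rintro (m | m | D)
      · simp [MM]
      · exact (ev_ne m).mono fun n hn => by simp [MM, hn]
      · exact (ev_notMem D).mono fun n hn => by simp [MM, hn]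
    · rintro (m | m | D)
      · exact (ev_ne m).mono fun n hn => by simpa using hn
      · simp
      · simp
  · rw [hcl _ (by simp)]
    refine one_mem_closure_markov (UU : Filter ℕ) (fun n => (.inr (.inl n) : Idx))
      (fun n m => by simp [MM]) ?_ ?_
    · rintro (m | m | D)
      · exact (ev_ne m).mono fun n hn => by simp [MM, hn.symm]
      · simp [MM]
      · exact (ev_notMem D).mono fun n hn => by simp [MM, hn]
    · rintro (m | m | D)
      · simp
      · exact (ev_ne m).mono fun n hn => by simpa using hn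
      · simp

end Pool.Agent.H153Z.Markov
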