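import Mathlib

/-! Definitions for the planar stationarity inclusion set and its rank-one convex hull. -/

set_option autoImplicit false

namespace Pool.Agent.H153Z.Planar

open Matrix

/-- Index set of the minors of an `n × 2` matrix: entries, and pairs of rows. -/
abbrev MinorIdx (n : ℕ) := (Fin n × Fin 2) ⊕ {p : Fin n × Fin n // p.1 < p.2}

/-- The vector `Φ(X)` of all minors of `X`. -/
def minors {n : ℕ} (X : Fin n → Fin 2 → ℝ) : MinorIdx n → ℝ
  | .inl p => X p.1 p.2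
  | .inr p => X p.1.1 0 * X p.1.2 1 - X p.1.1 1 * X p.1.2 0

/-- `f = g ∘ Φ` with `g` strictly convex and of class `C¹`. -/
def StrictlyPolyconvex {n : ℕ} (f : (Fin n → Fin 2 → ℝ) → ℝ) : Prop :=
  ∃ g : (MinorIdx n → ℝ) → ℝ, StrictConvexOn ℝ Set.univ g ∧ ContDiff ℝ 1 g ∧
    ∀ X, f X = g (minors X)

/-- The rotation `J`. -/
def J : Matrix (Fin 2) (Fin 2) ℝ := !![0, 1; -1, 0]

/-- The gradient `Df(X)`: the matrix of partial derivatives of `f` at `X`. -/
noncomputable def grad {n : ℕ} (f : (Fin n → Fin 2 → ℝ) → ℝ) (X : Fin n → Fin 2 → ℝ) :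
    Matrix (Fin n) (Fin 2) ℝ :=
  Matrix.of fun i j => fderiv ℝ f X (Pi.single i (Pi.single j 1))

/-- Real `(2n+2) × 2` matrices. -/
abbrev Big (n : ℕ) := Matrix (Fin n ⊕ Fin n ⊕ Fin 2) (Fin 2) ℝ

/-- The matrix obtained by stacking `X`, `Y = Df(X) J` and `Z = Xᵀ Y - f(X) J`. -/
noncomputable def stack {n : ℕ} (f : (Fin n → Fin 2 → ℝ) → ℝ) (X : Fin n → Fin 2 → ℝ) : Big n :=
  Matrix.fromRows (Matrix.of X)
    (Matrix.fromRows (grad f X * J) ((Matrix.of X)ᵀ * (grad f X * J) - f X • J))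

/-- The inclusion set `K_f`. -/
def K {n : ℕ} (f : (Fin n → Fin 2 → ℝ) → ℝ) : Set (Big n) := Set.range (stack f)

/-- `K_R`: the points of `K_f` of Hilbert-Schmidt norm at most `R`. -/
def KR {n : ℕ} (f : (Fin n → Fin 2 → ℝ) → ℝ) (R : ℝ) : Set (Big n) :=
  {A | A ∈ K f ∧ Real.sqrt (∑ i, ∑ j, A i j ^ 2) ≤ R}

/-- `F` is convex along every line with a rank-one direction. -/
def RankOneConvex {n : ℕ} (F : Big n → ℝ) : Prop :=
  ∀ A B : Big n, B.rank = 1 → ConvexOn ℝ Set.univ fun t : ℝ => F (A + t • B)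

/-- The rank-one convex hull `S^{rc}`. -/
def rcHull {n : ℕ} (S : Set (Big n)) : Set (Big n) :=
  {A | ∀ F : Big n → ℝ, RankOneConvex F → (∀ B ∈ S, F B ≤ 0) → F A ≤ 0}

end Pool.Agent.H153Z.Planar
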