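import Mathlib
import Pool.Agent.H153Z.DcInterp
import Pool.Agent.H153Z.PlanarData

/-! A strictly polyconvex `C^1` integrand on `8 × 2` matrices whose inclusion set has a nontrivial
rank-one convex hull. -/

set_option autoImplicit false

namespace Pool.Agent.H153Z.PlanarMain

open Pool.Agent.H153Z.Planar Pool.Agent.H153Z.PlanarData Pool.Agent.H153Z.DcInterp
open Matrix hiding J

abbrev M := Fin 8 → Fin 2 → ℝ

lemma minors_eq (X : M) : minors X = mn X := by
  funext p; cases p <;> rfl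

lemma differentiable_mn : Differentiable ℝ (mn : M → MinorIdx 8 → ℝ) := by
  refine differentiable_pi.2 fun p => ?_
  cases p <;> simp only [mn] <;> fun_prop

lemma hasDerivAt_mn (X E : M) (p : MinorIdx 8) :
    HasDerivAt (fun t : ℝ => mn (X + t • E) p) (dmn X E p) 0 := by
  have h : ∀ a b, HasDerivAt (fun t : ℝ => (X + t • E) a b) (E a b) 0 := by
    intro a b
    simpa using ((hasDerivAt_id (0 : ℝ)).mul_const (E a b)).const_add (X a b)
  cases p with
  | inl p => exact h _ _
  | inr p =>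
    refine (((h _ _).fun_mul (h _ _)).fun_sub ((h _ _).fun_mul (h _ _))).congr_deriv ?_
    simp [dmn]

lemma fderiv_comp_mn (g : (MinorIdx 8 → ℝ) → ℝ) (w : MinorIdx 8 → ℝ) (X E : M)
    (hg : HasFDerivAt g (dotL w) (mn X)) :
    fderiv ℝ (fun Y => g (mn Y)) X E = ∑ p, w p * dmn X E p := by
  have hP := (differentiable_mn X).hasFDerivAt
  have h1 : HasFDerivAt (fun Y => g (mn Y)) ((dotL w).comp (fderiv ℝ mn X)) X := hg.comp X hP
  have h3 : HasDerivAt (fun t : ℝ => X + t • E) E 0 := by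
    simpa using ((hasDerivAt_id (0 : ℝ)).smul_const E).const_add X
  have h4 : HasDerivAt (fun t : ℝ => mn (X + t • E)) (fderiv ℝ mn X E) 0 := by
    have h5 : HasFDerivAt (mn : M → MinorIdx 8 → ℝ) (fderiv ℝ mn X) (X + (0 : ℝ) • E) := by
      simpa using hP
    exact h5.comp_hasDerivAt (0 : ℝ) h3
  have h6 : fderiv ℝ mn X E = dmn X E := h4.unique (hasDerivAt_pi.2 (hasDerivAt_mn X E))
  rw [h1.fderiv, ContinuousLinearMap.comp_apply, h6, dotL_apply]

/-- Cast of an integer matrix. -/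
def cs (A : Fin 8 → Fin 2 → ℤ) : M := fun a b => (A a b : ℝ)

lemma mn_cs (X : Fin 8 → Fin 2 → ℤ) (p : MinorIdx 8) : mn (cs X) p = ((mn X p : ℤ) : ℝ) := by
  cases p <;> simp [mn, cs]

lemma dmn_cs (X E : Fin 8 → Fin 2 → ℤ) (p : MinorIdx 8) :
    dmn (cs X) (cs E) p = ((dmn X E p : ℤ) : ℝ) := by
  cases p <;> simp [dmn, cs]

lemma single_eq (a : Fin 8) (b : Fin 2) :
    (Pi.single a (Pi.single b 1) : M) = cs fun c d => if c = a ∧ d = b then 1 else 0 := by
  funext c d
  by_cases h1 : c = a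
  · subst h1
    by_cases h2 : d = b
    · subst h2; simp [cs]
    · simp [cs, h2]
  · simp [cs, h1]

/-- The 60 vertices. -/
def V (v : ℕ) : Big 8 := Matrix.of fun r j => (Vd v r j : ℝ)

theorem exists_f : ∃ f : M → ℝ, StrictlyPolyconvex f ∧ ∀ i : Fin 20, stack f (cs (Xd i)) = V i := by
  obtain ⟨g, h1, h2, h3⟩ := exists_strictConvex (fun i : Fin 20 => mn (cs (Xd i)))
    (fun i => (cd i : ℝ)) (fun i => dotL fun p => (wd i p : ℝ)) (by
      intro i j hji
      simp only [dotL_apply, mn_cs]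
      exact_mod_cast chk_gap i j hji)
  refine ⟨fun Y => g (mn Y), ⟨g, h1, h2, fun X => by rw [minors_eq]⟩, fun i => ?_⟩
  have hg : ∀ a b, grad (fun Y => g (mn Y)) (cs (Xd i)) a b =
      ((∑ p, wd i p * dmn (Xd i) (fun c d => if c = a ∧ d = b then 1 else 0) p : ℤ) : ℝ) := by
    intro a b
    simp only [grad, Matrix.of_apply]
    rw [fderiv_comp_mn g _ _ _ (h3 i).2, single_eq]
    simp only [dmn_cs]
    push_cast
    rfl
  have hY : grad (fun Y => g (mn Y)) (cs (Xd i)) * J = Matrix.of (cs (Yd i)) := by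
    ext a b
    have e := chk_grad i a
    rw [Matrix.mul_apply, Fin.sum_univ_two, hg, hg, e.1, e.2]
    fin_cases b <;> simp [J, cs]
  obtain ⟨e1, e2, e3, e4⟩ := chk_Z i
  ext r j
  rcases r with a | a | a
  · rfl
  · simp only [stack, hY]; rfl
  · simp only [stack, hY]
    simp only [(h3 i).1, Matrix.fromRows_apply_inr, V, Vd, Matrix.of_apply,
      Sum.elim_inr, Matrix.sub_apply, Matrix.mul_apply, Matrix.transpose_apply, cs,
      Matrix.smul_apply, smul_eq_mul]
    fin_cases a <;> fin_cases j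
    · simp [J, ← e1]
    · simp [J, ← e2]
    · simp [J, ← e3]
    · simp [J, ← e4]

lemma convex_of_rank_le {F : Big 8 → ℝ} (hF : RankOneConvex F) (A B : Big 8) (hB : B.rank ≤ 1) :
    ConvexOn ℝ Set.univ fun t : ℝ => F (A + t • B) := by
  rcases Nat.le_one_iff_eq_zero_or_eq_one.1 hB with h | h
  · have h1 : LinearMap.range B.mulVecLin = ⊥ := Submodule.finrank_eq_zero.1 h
    have h2 : B = 0 := by
      rw [LinearMap.range_eq_bot] at h1
      ext r j
      have := congrFun (LinearMap.congr_fun h1 (Pi.single j 1)) r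
      simpa using this
    subst h2
    simpa using convexOn_const (F A) convex_univ
  · exact hF A B h

lemma line_ineq {F : Big 8 → ℝ} (hF : RankOneConvex F) {a b : ℤ} (ha : 0 < a) (hb : 0 < b)
    {n : Fin 2 → ℤ} {c p q : ℕ} (h : Line a b n c p q) :
    ((a : ℝ) + b) * F (V c) ≤ a * F (V p) + b * F (V q) := by
  obtain ⟨h0, h1⟩ := h
  have h0' : (0 : ℝ) < (n 0 : ℝ) ^ 2 + (n 1 : ℝ) ^ 2 := by exact_mod_cast h0
  have ha' : (0 : ℝ) < a := by exact_mod_cast ha
  have hb' : (0 : ℝ) < b := by exact_mod_cast hb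
  have hab : (0 : ℝ) < a + b := by positivity
  have hr : (V p - V q).rank ≤ 1 := by
    have : V p - V q = vecMulVec
        (fun r => (((Vd p r 0 : ℝ) - Vd q r 0) * n 0 + ((Vd p r 1 : ℝ) - Vd q r 1) * n 1)
          / ((n 0 : ℝ) ^ 2 + (n 1 : ℝ) ^ 2)) (fun j => (n j : ℝ)) := by
      ext r j
      have e : ((Vd p r 0 : ℝ) - Vd q r 0) * n 1 = ((Vd p r 1 : ℝ) - Vd q r 1) * n 0 := by
        exact_mod_cast (h1 r).2
      simp only [V, Matrix.sub_apply, Matrix.of_apply, vecMulVec_apply]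
      rw [div_mul_eq_mul_div, eq_div_iff h0'.ne']
      fin_cases j
      · simp only [Fin.zero_eta]; linear_combination (n 1 : ℝ) * e
      · simp only [Fin.mk_one]; linear_combination (-(n 0 : ℝ)) * e
    rw [this]
    exact rank_vecMulVec_le _ _
  have hc := (convex_of_rank_le hF (V q) _ hr).2 (Set.mem_univ (0 : ℝ)) (Set.mem_univ (1 : ℝ))
    (div_pos hb' hab).le (div_pos ha' hab).le (by field_simp; ring)
  have h2 : V q + ((b / (a + b) : ℝ) • (0 : ℝ) + (a / (a + b) : ℝ) • (1 : ℝ)) • (V p - V q)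
      = V c := by
    ext r j
    have e : ((a : ℝ) + b) * Vd c r j = a * Vd p r j + b * Vd q r j := by
      exact_mod_cast (h1 r).1 j
    simp only [V, Matrix.add_apply, Matrix.smul_apply, Matrix.sub_apply, Matrix.of_apply,
      smul_eq_mul]
    field_simp
    linear_combination -e
  simp only [h2, zero_smul, add_zero, one_smul, add_sub_cancel] at hc
  simp only [smul_eq_mul] at hc
  have h3 := mul_le_mul_of_nonneg_left hc hab.le
  have h4 : ((a : ℝ) + b) * (b / (a + b) * F (V q) + a / (a + b) * F (V p))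
      = a * F (V p) + b * F (V q) := by field_simp; ring
  linarith

theorem main : ∃ f : M → ℝ, StrictlyPolyconvex f ∧ ∃ R : ℝ, 0 < R ∧
    ∃ A : Big 8, A ∈ rcHull (KR f R) ∧ A ∉ K f := by
  obtain ⟨f, h1, h2⟩ := exists_f
  refine ⟨f, h1, 10 ^ 10, by positivity, V 40, fun F hF hK => ?_, ?_⟩
  · have ht : ∀ e : Fin 20, F (V e) ≤ 0 := fun e => hK _ ⟨⟨_, h2 e⟩, by
      refine Real.sqrt_le_iff.2 ⟨by positivity, ?_⟩
      simp only [V, Matrix.of_apply]
      exact_mod_cast chk_norm e⟩
    obtain ⟨e0, he0⟩ := Finite.exists_max fun e : Fin 20 => F (V (40 + e))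
    have hg : ∀ e : Fin 20, 2 * F (V (20 + e)) ≤ F (V (40 + e0)) := fun e => by
      have := line_ineq hF one_pos one_pos (chk_T e)
      have := ht e
      have := he0 e
      push_cast at *
      linarith
    have h3 := line_ineq hF two_pos one_pos (chk_B e0)
    have h4 := hg (pe e0)
    have h5 := hg (qe e0)
    have h6 : F (V 40) ≤ F (V (40 + e0)) := he0 0
    push_cast at h3
    linarith
  · rintro ⟨X, hX⟩
    apply chk_out
    have e1 : ∀ k j, X k j = Xd 40 k j := fun k j => congrFun (congrFun hX (.inl k)) j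
    have e2 : ∀ k j, (grad f X * J) k j = Yd 40 k j := fun k j =>
      congrFun (congrFun hX (.inr (.inl k))) j
    have e3 : ((Matrix.of X)ᵀ * (grad f X * J) - f X • J) 0 0 = Zd 40 0 0 :=
      congrFun (congrFun hX (.inr (.inr 0))) 0
    rw [Matrix.sub_apply, Matrix.mul_apply] at e3
    simp only [Matrix.transpose_apply, Matrix.of_apply, e1, e2] at e3
    have e4 : (f X • J) 0 0 = 0 := by simp [J]
    rw [e4, sub_zero] at e3
    exact_mod_cast e3

end Pool.Agent.H153Z.PlanarMain
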