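import Mathlib

set_option autoImplicit false

open Filter Set Topology
open scoped Pointwise

namespace Pool.Agent.H153Z.Precompact

/-- In a precompact group small elements have small commutators with everything. -/
theorem sin_of_precompact {G : Type} [Group G] [TopologicalSpace G] [IsTopologicalGroup G]
    (hp : ∀ U ∈ 𝓝 (1 : G), ∃ F : Finset G, (F : Set G) * U = univ) {W : Set G}
    (hW : W ∈ 𝓝 (1 : G)) : {x : G | ∀ h, x * h * x⁻¹ * h⁻¹ ∈ W} ∈ 𝓝 (1 : G) := by
  have hc : Continuous fun p : G × G × G => p.1 * (p.2.1⁻¹ * p.2.2 * p.2.1) := by fun_prop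
  have h1 : (fun p : G × G × G => p.1 * (p.2.1⁻¹ * p.2.2 * p.2.1)) ⁻¹' W ∈
      𝓝 ((1, 1, 1) : G × G × G) := hc.continuousAt.preimage_mem_nhds (by simpa using hW)
  obtain ⟨U1, hU1, U', hU', h2⟩ := mem_nhds_prod_iff.1 h1
  obtain ⟨U2, hU2, U3, hU3, h3⟩ := mem_nhds_prod_iff.1 hU'
  obtain ⟨F, hF⟩ := hp U2 hU2
  have h4 : ∀ᶠ x in 𝓝 (1 : G), ∀ f ∈ F, f⁻¹ * x⁻¹ * f ∈ U3 := by
    refine (Filter.eventually_all_finset _).2 fun f _ => ?_
    have : Continuous fun x : G => f⁻¹ * x⁻¹ * f := by fun_prop
    exact this.continuousAt.preimage_mem_nhds (by simpa using hU3)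
  filter_upwards [h4, hU1] with x hx hx1 h
  have : h⁻¹ ∈ (F : Set G) * U2 := by rw [hF]; trivial
  obtain ⟨f, hf, u, hu, hfu⟩ := this
  have e : h = u⁻¹ * f⁻¹ := by
    have : f * u = h⁻¹ := hfu
    rw [← mul_inv_rev, this, inv_inv]
  have := h2 (mk_mem_prod hx1 (h3 (mk_mem_prod hu (hx f hf))))
  simp only [mem_preimage] at this
  convert this using 1
  rw [e]; group

/-- the finite group -/
abbrev K : Type := Equiv.Perm (Fin 3)
/-- a transposition -/
def aa : K := Equiv.swap 0 1
/-- another transposition -/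
def ss : K := Equiv.swap 1 2
/-- their commutator -/
def cc : K := aa * ss * aa⁻¹ * ss⁻¹

theorem cc_ne : cc ≠ 1 := by decide

/-- the free ultrafilter -/
noncomputable abbrev UU : Ultrafilter ℕ := hyperfilter ℕ

/-- the points -/
abbrev Pt : Type := {A : Set ℕ // A ∈ UU} ⊕ (ℕ → Bool)

/-- the group: functions that are locally constant on the Cantor set part -/
def GG : Subgroup (Pt → K) where
  carrier := {g | IsLocallyConstant fun x : ℕ → Bool => g (.inr x)}
  mul_mem' := fun ha hb => IsLocallyConstant.mul ha hb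
  one_mem' := IsLocallyConstant.const 1
  inv_mem' := fun ha => IsLocallyConstant.inv ha

open Classical in
/-- the two sequences -/
noncomputable def ee (b : Bool) (n : ℕ) : GG :=
  ⟨fun p => match p with
    | .inl A => if n ∈ A.1 then 1 else aa
    | .inr x => if x n = b then 1 else aa,
   (IsLocallyConstant.of_discrete (fun y : Bool => if y = b then (1 : K) else aa)).comp_continuous
     (continuous_apply n)⟩

open Classical in
/-- an element supported at one isolated point -/
noncomputable def pt (A : {A : Set ℕ // A ∈ UU}) (k : K) : GG :=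
  ⟨fun p => if p = .inl A then k else 1, by
    have : (fun x : ℕ → Bool => if (Sum.inr x : Pt) = .inl A then k else 1) = fun _ => 1 := by
      funext x; simp
    show IsLocallyConstant _
    rw [this]; exact IsLocallyConstant.const 1⟩

/-- an element constant on the Cantor set -/
def ct (k : K) : GG :=
  ⟨fun p => match p with
    | .inl _ => 1
    | .inr _ => k, IsLocallyConstant.const k⟩

theorem card_le : Cardinal.mk GG ≤ 2 ^ Cardinal.continuum := by
  have h1 : Cardinal.mk Pt ≤ Cardinal.continuum := by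
    have : Cardinal.mk {A : Set ℕ // A ∈ UU} ≤ Cardinal.continuum :=
      (Cardinal.mk_subtype_le _).trans (by simp)
    simp only [Pt, Cardinal.mk_sum, Cardinal.lift_id]
    calc Cardinal.mk {A : Set ℕ // A ∈ UU} + Cardinal.mk (ℕ → Bool)
        ≤ Cardinal.continuum + Cardinal.continuum := by
          gcongr
          simp
      _ = Cardinal.continuum := by simp
  have h2 : Cardinal.mk K ≤ Cardinal.continuum :=
    Cardinal.mk_le_aleph0.trans Cardinal.aleph0_le_continuum
  calc Cardinal.mk GG ≤ Cardinal.mk (Pt → K) := Cardinal.mk_subtype_le _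
    _ = Cardinal.mk K ^ Cardinal.mk Pt := by simp only [Cardinal.mk_pi, Cardinal.prod_const,
        Cardinal.lift_id]
    _ ≤ Cardinal.continuum ^ Cardinal.mk Pt := Cardinal.power_le_power_right h2
    _ ≤ Cardinal.continuum ^ Cardinal.continuum :=
        Cardinal.power_le_power_left Cardinal.continuum_ne_zero h1
    _ = 2 ^ Cardinal.continuum := Cardinal.power_self_eq Cardinal.aleph0_le_continuum

/-- the points where the sequence is eventually trivial along the ultrafilter -/
def YY (b : Bool) : Set Pt := {p | ∀ᶠ n in (UU : Filter ℕ), (ee b n).1 p = 1}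

/-- restriction -/
def res (b : Bool) : GG →* (YY b → K) where
  toFun g y := g.1 y.1
  map_one' := rfl
  map_mul' _ _ := rfl

theorem res_inj (b : Bool) : Function.Injective (res b) := by
  classical
  rw [injective_iff_map_eq_one]
  intro g hg
  have hg' : ∀ p ∈ YY b, g.1 p = 1 := fun p hp => congrFun hg ⟨p, hp⟩
  refine Subtype.ext (funext ?_)
  rintro (A | x)
  · refine hg' _ ?_
    filter_upwards [A.2] with n hn
    simp [ee, hn]
  · let u : ℕ → ℕ → Bool := fun m n => if n < m then x n else b
    have hu : Tendsto u atTop (𝓝 x) := by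
      refine tendsto_pi_nhds.2 fun n => tendsto_const_nhds.congr' ?_
      filter_upwards [eventually_gt_atTop n] with m hm
      simp [u, hm]
    have hlc : IsLocallyConstant fun x : ℕ → Bool => g.1 (.inr x) := g.2
    obtain ⟨m, hm⟩ := (hu.eventually (hlc.eventually_eq x)).exists
    show g.1 (.inr x) = 1
    rw [← hm]
    refine hg' _ ?_
    have : ∀ᶠ n in (UU : Filter ℕ), m ≤ n :=
      (Nat.cofinite_eq_atTop ▸ eventually_ge_atTop m :
        ∀ᶠ n in cofinite, m ≤ n).filter_mono hyperfilter_le_cofinite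
    filter_upwards [this] with n hn
    simp [ee, u, not_lt.2 hn]

theorem good (b : Bool) : ∃ t : TopologicalSpace GG,
    (@IsTopologicalGroup GG t _ ∧ @T2Space GG t ∧
      ∀ U ∈ @nhds GG t 1, ∃ F : Finset GG, (F : Set GG) * U = Set.univ) ∧
    (1 : GG) ∈ @closure GG t (range (ee b)) := by
  classical
  let _ : TopologicalSpace K := ⊥
  have : DiscreteTopology K := ⟨rfl⟩
  have : IsTopologicalGroup K := {}
  let t : TopologicalSpace GG := TopologicalSpace.induced (res b) inferInstance
  have hind : @IsInducing _ _ t _ (res b) := @IsInducing.mk _ _ t _ _ rfl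
  refine ⟨t, ⟨topologicalGroup_induced (res b), ?_, ?_⟩, ?_⟩
  · exact @IsEmbedding.t2Space _ _ t _ _ _ (@IsEmbedding.mk _ _ t _ _ hind (res_inj b))
  · intro U hU
    rw [nhds_induced, mem_comap] at hU
    obtain ⟨W, hW, hWU⟩ := hU
    rw [nhds_pi, Filter.mem_pi] at hW
    obtain ⟨T, hT, s, hs, hsW⟩ := hW
    have := hT.to_subtype
    let _ := Fintype.ofFinite (T → K)
    let φ : GG → (T → K) := fun g y => res b g y.1
    refine ⟨Finset.univ.image (Function.invFun φ), eq_univ_of_forall fun g => ?_⟩
    refine ⟨Function.invFun φ (φ g), by simp, (Function.invFun φ (φ g))⁻¹ * g, ?_, by simp⟩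
    refine hWU (hsW fun y hy => ?_)
    have h1 : φ (Function.invFun φ (φ g)) = φ g := Function.invFun_eq ⟨g, rfl⟩
    have h2 := congrFun h1 ⟨y, hy⟩
    have h3 : res b ((Function.invFun φ (φ g))⁻¹ * g) y = res b 1 y := by
      rw [map_mul, map_inv, map_one, Pi.mul_apply, Pi.inv_apply]
      exact inv_mul_eq_one.2 h2
    rw [h3]
    exact mem_of_mem_nhds (hs y)
  · have key : Tendsto (ee b) (UU : Filter ℕ) (@nhds _ t 1) →
        (1 : GG) ∈ @closure GG t (range (ee b)) := fun h =>
      @mem_closure_of_tendsto _ t _ _ _ (ee b) (UU : Filter ℕ) _ h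
        (Eventually.of_forall fun n => mem_range_self n)
    refine key ?_
    rw [@IsInducing.tendsto_nhds_iff _ _ _ _ t _ _ _ _ hind]
    refine tendsto_pi_nhds.2 fun y => tendsto_const_nhds.congr' ?_
    filter_upwards [y.2] with n hn
    exact hn.symm

theorem large (t : TopologicalSpace GG) [@IsTopologicalGroup GG t _] [@T2Space GG t]
    (hp : ∀ U ∈ @nhds GG t 1, ∃ F : Finset GG, (F : Set GG) * U = Set.univ) (b : Bool)
    (hx : (1 : GG) ∈ @closure GG t (range (ee b))) {V : Set GG} (hV : V ∈ @nhds GG t 1) :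
    {n | ee b n ∈ V} ∈ UU := by
  classical
  by_contra hA
  let A : {A : Set ℕ // A ∈ UU} := ⟨_, Ultrafilter.compl_mem_iff_notMem.2 hA⟩
  have hne : (1 : GG) ≠ pt A cc := fun h => cc_ne (by
    have := congrFun (congrArg Subtype.val h) (.inl A)
    simpa [pt] using this.symm)
  have hO := @sin_of_precompact GG _ t _ hp {pt A cc}ᶜ
    (@IsOpen.mem_nhds _ t _ _ (@isOpen_compl_singleton _ t _ _) hne)
  obtain ⟨_, ⟨h1, h2⟩, n, rfl⟩ := (@mem_closure_iff_nhds _ t _ _).1 hx _ (inter_mem hV hO)
  refine h2 (pt A ss) (Subtype.ext (funext fun p => ?_))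
  have hn : n ∉ A.1 := fun h => h h1
  by_cases hp : p = .inl A
  · subst hp
    simp [pt, ee, hn, cc]
  · simp [pt, hp]

theorem not_both (t : TopologicalSpace GG) [@IsTopologicalGroup GG t _] [@T2Space GG t]
    (hp : ∀ U ∈ @nhds GG t 1, ∃ F : Finset GG, (F : Set GG) * U = Set.univ)
    (hx : ∀ b, (1 : GG) ∈ @closure GG t (range (ee b))) : False := by
  classical
  have hne : (1 : GG) ≠ ct cc := fun h => cc_ne (by
    have := congrFun (congrArg Subtype.val h) (.inr fun _ => true)
    simpa [ct] using this.symm)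
  obtain ⟨W, hW, hWW⟩ := @exists_nhds_one_split GG t _ _ {ct cc}ᶜ
    (@IsOpen.mem_nhds _ t _ _ (@isOpen_compl_singleton _ t _ _) hne)
  have hO := @sin_of_precompact GG _ t _ hp W hW
  obtain ⟨n, h1, h2⟩ := Ultrafilter.nonempty_of_mem
    (inter_mem (large t hp true (hx _) hO) (large t hp false (hx _) hO))
  refine hWW _ (h1 (ct ss)) _ (h2 (ct ss)) (Subtype.ext (funext ?_))
  rintro (A | x)
  · simp [ct]
  · cases h : x n <;> simp [ct, ee, h, cc]

theorem main :
    ¬ (∀ (G : Type) [Group G],
      Cardinal.mk G ≤ 2 ^ Cardinal.continuum →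
      (∃ t : TopologicalSpace G,
        @IsTopologicalGroup G t _ ∧ @T2Space G t ∧
          ∀ U ∈ @nhds G t 1, ∃ F : Finset G, (F : Set G) * U = Set.univ) →
      ∀ ℰ : Set (Set G), ℰ.Countable →
        ∃ t : TopologicalSpace G,
          (@IsTopologicalGroup G t _ ∧ @T2Space G t ∧
            ∀ U ∈ @nhds G t 1, ∃ F : Finset G, (F : Set G) * U = Set.univ) ∧
          ∀ E ∈ ℰ,
            @closure G t E =
              ⋂₀ {C : Set G | E ⊆ C ∧
                ∀ s : TopologicalSpace G,
                  (@IsTopologicalGroup G s _ ∧ @T2Space G s ∧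
                    ∀ U ∈ @nhds G s 1, ∃ F : Finset G, (F : Set G) * U = Set.univ) →
                  @IsClosed G s C}) := by
  intro h
  obtain ⟨t, ⟨ht, ht2, hp⟩, hcl⟩ := h GG card_le ((good true).imp fun _ h => h.1)
    (range fun b => range (ee b)) (countable_range _)
  refine not_both t hp fun b => ?_
  rw [hcl _ ⟨b, rfl⟩]
  rintro C ⟨hC, hC'⟩
  obtain ⟨s, hs, h1⟩ := good b
  exact @closure_minimal _ s _ _ hC (hC' s hs) _ h1

end Pool.Agent.H153Z.Precompact
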