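import Pool.Agent.H153Z.SpamDefs

set_option autoImplicit false

open MeasureTheory ProbabilityTheory Set
open scoped ENNReal NNReal

namespace Pool.Agent.H153Z.Spam

section
variable {Z : Type} [MeasurableSpace Z] (pr : Z → ℕ → Hist → ℝ≥0) (er : Z → ℕ → Bool) (θ : ℝ≥0)

/-- fibres are measurable -/
def Fib (H : Z → Hist) : Prop := ∀ h, MeasurableSet {z | H z = h}

theorem meas_at {β : Type} [MeasurableSpace β] {H : Z → Hist} (hH : Fib H) {f : Z → Hist → β}
    (hf : ∀ h, Measurable fun z => f z h) : Measurable fun z => f z (H z) := by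
  intro s hs
  have : (fun z => f z (H z)) ⁻¹' s = ⋃ h, {z | H z = h} ∩ (fun z => f z h) ⁻¹' s := by
    ext z; simp
  rw [this]
  exact MeasurableSet.iUnion fun h => (hH h).inter (hf h hs)

variable {pr er} (hp : ∀ t h, Measurable fun z => pr z t h) (he : ∀ k, Measurable fun z => er z k)
include hp he

theorem fib_next {H : Z → Hist} (hH : Fib H) (a : ℕ × Bool) :
    Fib fun z => next (pr z) (er z) θ (H z) a := by
  let _ : MeasurableSpace Hist := ⊤
  have key : Measurable fun z => next (pr z) (er z) θ (H z) a := by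
    refine meas_at hH (f := fun z h => next (pr z) (er z) θ h a) fun h => ?_
    unfold next
    refine Measurable.ite ?_ ?_ measurable_const
    · have h1 : MeasurableSet {z | pr z a.1 h ≤ θ} := measurableSet_le (hp _ _) measurable_const
      exact (MeasurableSet.const (a.2 = true)).union h1
    · exact (measurable_from_top (f := fun b : Bool => (a.1, some (xor a.2 b)) :: h)).comp (he _)
  intro h
  exact key (show MeasurableSet {h} from trivial)

theorem meas_cost (s : List (ℕ × Bool)) : ∀ {H : Z → Hist}, Fib H →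
    Measurable fun z => cost (pr z) (er z) θ (H z) s := by
  induction s with
  | nil => intro H _; simp [cost]
  | cons a s ih =>
    intro H hH
    have hx : Measurable fun z => pr z a.1 (H z) := meas_at hH (hp a.1)
    simp only [cost]
    refine Measurable.add ?_ (ih (fib_next θ hp he hH a))
    exact Measurable.ite (MeasurableSet.const _) hx
      (Measurable.ite (measurableSet_le hx measurable_const) measurable_const measurable_const)

theorem meas_badPaid (s : List (ℕ × Bool)) : ∀ {H : Z → Hist}, Fib H →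
    Measurable fun z => badPaid (pr z) (er z) θ (H z) s := by
  induction s with
  | nil => intro H _; simp [badPaid]
  | cons a s ih =>
    intro H hH
    have hx : Measurable fun z => pr z a.1 (H z) := meas_at hH (hp a.1)
    simp only [badPaid]
    refine Measurable.add ?_ (ih (fib_next θ hp he hH a))
    have h1 : MeasurableSet {z | pr z a.1 (H z) ≤ θ} := measurableSet_le hx measurable_const
    exact Measurable.ite ((MeasurableSet.const (a.2 = false)).inter h1) hx measurable_const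

theorem greedy (μ : Measure Z) [IsProbabilityMeasure μ] (c : ℝ≥0) (M : ℕ) :
    ∀ {H : Z → Hist}, Fib H → ∃ s : List (ℕ × Bool), s.length = M ∧ (∀ a ∈ s, a.1 = 1) ∧
      ((M / 2 + c * s.countP (fun a => a.2) : ℝ≥0) : ℝ≥0∞) ≤
        ∫⁻ z, (cost (pr z) (er z) (2 * c + 1) (H z) s : ℝ≥0∞) ∂μ := by
  induction M with
  | zero => intro H _; exact ⟨[], rfl, by simp, by simp⟩
  | succ M ih =>
    intro H hH
    have hx : Measurable fun z => pr z 1 (H z) := meas_at hH (hp 1)
    have hE : MeasurableSet {z | pr z 1 (H z) ≤ 2 * c + 1} := measurableSet_le hx measurable_const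
    by_cases hhalf : (1 / 2 : ℝ≥0∞) ≤ μ {z | pr z 1 (H z) ≤ 2 * c + 1}
    · obtain ⟨s, hs, hs1, hle⟩ := ih (fib_next (2 * c + 1) hp he hH (1, false))
      refine ⟨(1, false) :: s, by simp [hs], by simpa using hs1, ?_⟩
      simp only [cost, ENNReal.coe_add]
      refine le_trans ?_ (le_lintegral_add _ _)
      have h1 : μ {z | pr z 1 (H z) ≤ 2 * c + 1} = ∫⁻ z, ((if false = true then pr z 1 (H z)
          else if pr z 1 (H z) ≤ 2 * c + 1 then 1 else 0 : ℝ≥0) : ℝ≥0∞) ∂μ := by
        rw [← lintegral_indicator_one hE]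
        refine lintegral_congr fun z => ?_
        by_cases hz : pr z 1 (H z) ≤ 2 * c + 1 <;> simp [hz, indicator]
      rw [← h1]
      refine le_trans (le_of_eq ?_) (add_le_add hhalf hle)
      rw [← ENNReal.coe_add, show (1 / 2 : ℝ≥0∞) = ((1 / 2 : ℝ≥0) : ℝ≥0∞) by simp,
        ← ENNReal.coe_add]
      congr 1
      simp only [List.countP_cons]
      push_cast
      simp
      ring
    · obtain ⟨s, hs, hs1, hle⟩ := ih (fib_next (2 * c + 1) hp he hH (1, true))
      refine ⟨(1, true) :: s, by simp [hs], by simpa using hs1, ?_⟩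
      simp only [cost, ENNReal.coe_add]
      refine le_trans ?_ (le_lintegral_add _ _)
      have h0 : (1 / 2 : ℝ≥0∞) ≤ μ {z | pr z 1 (H z) ≤ 2 * c + 1}ᶜ := by
        rw [prob_compl_eq_one_sub hE]
        refine ENNReal.le_sub_of_add_le_right (measure_ne_top _ _) ?_
        calc 1 / 2 + μ {z | pr z 1 (H z) ≤ 2 * c + 1} ≤ 1 / 2 + 1 / 2 := by
              gcongr; exact (not_le.1 hhalf).le
          _ = 1 := ENNReal.add_halves 1
      have h1 : ((2 * c + 1 : ℝ≥0) : ℝ≥0∞) * (1 / 2) ≤ ∫⁻ z, ((if true = true then pr z 1 (H z)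
          else if pr z 1 (H z) ≤ 2 * c + 1 then 1 else 0 : ℝ≥0) : ℝ≥0∞) ∂μ := by
        refine le_trans (mul_le_mul_right h0 _) ?_
        rw [← lintegral_indicator_const hE.compl]
        refine lintegral_mono fun z => ?_
        by_cases hz : pr z 1 (H z) ≤ 2 * c + 1
        · simp [hz, indicator]
        · rw [indicator_of_mem (show z ∈ {z | pr z 1 (H z) ≤ 2 * c + 1}ᶜ from hz), if_pos rfl]
          exact ENNReal.coe_le_coe.2 (not_le.1 hz).le
      refine le_trans (le_of_eq ?_) (add_le_add h1 hle)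
      rw [← ENNReal.coe_add, show (1 / 2 : ℝ≥0∞) = ((1 / 2 : ℝ≥0) : ℝ≥0∞) by simp,
        ← ENNReal.coe_mul, ← ENNReal.coe_add]
      congr 1
      simp only [List.countP_cons]
      push_cast
      simp
      ring

end

theorem badPaid_le (pr : ℕ → Hist → ℝ≥0) (er : ℕ → Bool) (θ : ℝ≥0) (s : List (ℕ × Bool)) :
    ∀ h, badPaid pr er θ h s ≤ θ * s.length := by
  induction s with
  | nil => intro h; simp [badPaid]
  | cons a s ih =>
    intro h
    simp only [badPaid, List.length_cons]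
    push_cast
    rw [mul_add, mul_one, add_comm (θ * _)]
    refine add_le_add ?_ (ih _)
    split_ifs with h1
    · exact h1.2
    · exact zero_le

theorem errLaw_prob {ε : ℝ≥0} (hε : ε ≤ 1) : IsProbabilityMeasure (errLaw ε) := by
  have : IsProbabilityMeasure ((ε : ℝ≥0∞) • Measure.dirac true +
      ((1 - ε : ℝ≥0) : ℝ≥0∞) • Measure.dirac false : Measure Bool) := by
    constructor
    simp only [Measure.coe_add, Measure.coe_smul, Pi.add_apply, Pi.smul_apply, measure_univ,
      smul_eq_mul, mul_one]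
    rw [← ENNReal.coe_add, add_tsub_cancel_of_le hε, ENNReal.coe_one]
  unfold errLaw
  infer_instance

theorem numeric (c θ L : ℝ≥0) (hL : 0 < L) :
    ∃ M : ℕ, c * (θ * M / L) ^ (2 / 3 : ℝ) < M / 2 / L := by
  obtain ⟨M, hM⟩ := exists_nat_gt (8 * c ^ 3 * θ ^ 2 * L)
  refine ⟨M, ?_⟩
  have hM0 : (0 : ℝ≥0) < M := lt_of_le_of_lt zero_le hM
  refine lt_of_pow_lt_pow_left₀ 3 zero_le ?_
  rw [mul_pow, ← NNReal.rpow_natCast ((θ * M / L) ^ (2 / 3 : ℝ)), ← NNReal.rpow_mul]
  norm_num
  rw [div_pow, div_pow, div_pow, ← mul_div_assoc, div_lt_div_iff₀ (by positivity) (by positivity),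
    div_mul_eq_mul_div, lt_div_iff₀ (by positivity)]
  calc c ^ 3 * (θ * M) ^ 2 * L ^ 3 * 2 ^ 3 = (8 * c ^ 3 * θ ^ 2 * L) * (M ^ 2 * L ^ 2) := by ring
    _ < M * (M ^ 2 * L ^ 2) := by gcongr
    _ = M ^ 3 * L ^ 2 := by ring

theorem main (ε : ℝ≥0) (hε : ε < 1 / 2) (A : Algorithm) (c : ℝ≥0) (L : ℕ) (hL : 1 ≤ L) :
    ∃ B : Adversary L, Measurable (rateT A B) ∧ Measurable (rateC A B) ∧
      c * ((∫⁻ z, rateT A B z ∂(A.P.prod (errLaw ε))) ^ (2 / 3 : ℝ) + ratePG B) <
        ∫⁻ z, rateC A B z ∂(A.P.prod (errLaw ε)) := by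
  have := errLaw_prob (ε := ε) (hε.le.trans (by norm_num))
  have hL0 : (0 : ℝ≥0) < L := by exact_mod_cast hL
  have hL1 : (L : ℝ≥0∞) ≠ 0 := by exact_mod_cast (by omega : L ≠ 0)
  have hp : ∀ t h, Measurable fun z : A.Ω × (ℕ → Bool) => A.price z.1 t h :=
    fun t h => (A.meas t h).comp measurable_fst
  have he : ∀ k, Measurable fun z : A.Ω × (ℕ → Bool) => z.2 k :=
    fun k => (measurable_pi_apply k).comp measurable_snd
  have h0 : Fib fun _ : A.Ω × (ℕ → Bool) => ([] : Hist) := fun h => MeasurableSet.const _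
  obtain ⟨M, hM⟩ := numeric c (2 * c + 1) L hL0
  obtain ⟨s, hs, hs1, hle⟩ := greedy hp he (A.P.prod (errLaw ε)) c M h0
  let B : Adversary L := ⟨s, 2 * c + 1, fun a ha => by rw [hs1 a ha]; exact ⟨le_rfl, hL⟩, by
    rw [List.pairwise_map]
    exact List.Pairwise.imp_of_mem (R := fun _ _ => True)
      (fun {a b} ha hb _ => by rw [hs1 a ha, hs1 b hb]) (List.pairwise_of_forall fun _ _ => trivial)⟩
  have mT := (meas_badPaid (2 * c + 1) hp he s h0).coe_nnreal_ennreal
  have mC := (meas_cost (2 * c + 1) hp he s h0).coe_nnreal_ennreal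
  refine ⟨B, mT.div_const _, mC.div_const _, ?_⟩
  have hT : ∫⁻ z, rateT A B z ∂(A.P.prod (errLaw ε)) ≤ (((2 * c + 1) * M / L : ℝ≥0) : ℝ≥0∞) := by
    refine (lintegral_mono fun z => ?_).trans (le_of_eq (by rw [lintegral_const, measure_univ,
      mul_one]))
    unfold rateT
    rw [ENNReal.coe_div hL0.ne', ENNReal.coe_natCast]
    gcongr
    rw [← hs]
    exact badPaid_le _ _ _ _ _
  have hC : (((M / 2 + c * s.countP (fun a => a.2)) / L : ℝ≥0) : ℝ≥0∞) ≤
      ∫⁻ z, rateC A B z ∂(A.P.prod (errLaw ε)) := by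
    unfold rateC
    simp only [div_eq_mul_inv _ (L : ℝ≥0∞)]
    rw [lintegral_mul_const _ mC, ENNReal.coe_div hL0.ne', ENNReal.coe_natCast,
      div_eq_mul_inv _ (L : ℝ≥0∞)]
    gcongr
  refine lt_of_le_of_lt (b := ((c * (((2 * c + 1) * M / L) ^ (2 / 3 : ℝ) +
    s.countP (fun a => a.2) / L) : ℝ≥0) : ℝ≥0∞)) ?_ (lt_of_lt_of_le ?_ hC)
  · rw [ENNReal.coe_mul, ENNReal.coe_add, ENNReal.coe_rpow_of_nonneg _ (by norm_num)]
    gcongr
    unfold ratePG
    rw [ENNReal.coe_div hL0.ne', ENNReal.coe_natCast, ENNReal.coe_natCast]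
  · rw [ENNReal.coe_lt_coe, mul_add, add_div, mul_div_assoc c]
    gcongr

end Pool.Agent.H153Z.Spam
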