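import Mathlib

set_option autoImplicit false

open MeasureTheory ProbabilityTheory
open scoped ENNReal NNReal

namespace Pool.Agent.H153Z.Spam

/-- The record of earlier attempted posts, most recent first: the time step of the attempt, and
`some label` if it was published (`true` = labelled legitimate, `false` = labelled spam) or `none`
if it was abandoned. -/
abbrev Hist : Type := List (ℕ × Option Bool)

/-- A randomized pricing algorithm: a probability space of private randomness and, for each
outcome, the cost charged for an attempted post as a function of the current time step and of the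
record of earlier attempts (it may ignore any part of the record). -/
structure Algorithm where
  Ω : Type
  [m : MeasurableSpace Ω]
  P : Measure Ω
  [prob : IsProbabilityMeasure P]
  price : Ω → ℕ → Hist → ℝ≥0
  meas : ∀ t h, Measurable fun ω => price ω t h

attribute [instance] Algorithm.m Algorithm.prob

/-- A non-adaptive threshold adversary for the time steps `1, …, L`: a finite schedule of attempted
posts in chronological order (time step, and `true` for a good ID or `false` for a bad ID), and a
threshold `θ`: a bad ID pays the cost if it is at most `θ` and abandons the post otherwise. -/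
structure Adversary (L : ℕ) where
  sched : List (ℕ × Bool)
  θ : ℝ≥0
  time_mem : ∀ a ∈ sched, 1 ≤ a.1 ∧ a.1 ≤ L
  time_mono : (sched.map Prod.fst).Pairwise (· ≤ ·)

/-- The record after one more attempt `a`. The attempt is published if the ID is good or the cost
is at most `θ`; the label of the `k`-th published post (counting from `0`) is wrong iff `err k`. -/
noncomputable def next (price : ℕ → Hist → ℝ≥0) (err : ℕ → Bool) (θ : ℝ≥0) (h : Hist)
    (a : ℕ × Bool) : Hist :=
  if a.2 = true ∨ price a.1 h ≤ θ then
    (a.1, some (xor a.2 (err (h.countP fun r => r.2.isSome)))) :: h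
  else (a.1, none) :: h

/-- Total resource paid by bad IDs when the schedule is run from the record `h`. -/
noncomputable def badPaid (price : ℕ → Hist → ℝ≥0) (err : ℕ → Bool) (θ : ℝ≥0) :
    Hist → List (ℕ × Bool) → ℝ≥0
  | _, [] => 0
  | h, a :: s => (if a.2 = false ∧ price a.1 h ≤ θ then price a.1 h else 0) +
      badPaid price err θ (next price err θ h a) s

/-- Number of published spam posts plus total cost paid on legitimate posts when the schedule is
run from the record `h`. -/
noncomputable def cost (price : ℕ → Hist → ℝ≥0) (err : ℕ → Bool) (θ : ℝ≥0) :
    Hist → List (ℕ × Bool) → ℝ≥0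
  | _, [] => 0
  | h, a :: s => (if a.2 = true then price a.1 h else if price a.1 h ≤ θ then 1 else 0) +
      cost price err θ (next price err θ h a) s

/-- The law of the classifier errors: independent, each equal to `true` with probability `ε`. -/
noncomputable def errLaw (ε : ℝ≥0) : Measure (ℕ → Bool) :=
  Measure.infinitePi fun _ : ℕ =>
    (ε : ℝ≥0∞) • Measure.dirac true + ((1 - ε : ℝ≥0) : ℝ≥0∞) • Measure.dirac false

/-- The rate `T` as a random variable on (algorithm's randomness, classifier errors). -/
noncomputable def rateT (A : Algorithm) {L : ℕ} (B : Adversary L) (z : A.Ω × (ℕ → Bool)) :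
    ℝ≥0∞ := (badPaid (A.price z.1) z.2 B.θ [] B.sched : ℝ≥0∞) / L

/-- The rate `C` as a random variable on (algorithm's randomness, classifier errors). -/
noncomputable def rateC (A : Algorithm) {L : ℕ} (B : Adversary L) (z : A.Ω × (ℕ → Bool)) :
    ℝ≥0∞ := (cost (A.price z.1) z.2 B.θ [] B.sched : ℝ≥0∞) / L

/-- The rate `P_G` (deterministic for these adversaries). -/
noncomputable def ratePG {L : ℕ} (B : Adversary L) : ℝ≥0∞ :=
  (B.sched.countP (fun a => a.2) : ℝ≥0∞) / L

end Pool.Agent.H153Z.Spam
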